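import Pool.Agent.H215R3.LC.Loc

/-!
# Connecting classes of multiplication sequences, vanishing of Ext
-/

set_option autoImplicit false

namespace Pool.Agent.H215R3.LC

open CategoryTheory Limits Opposite Abelian

noncomputable section

variable {R : Type} [CommRing R]

abbrev QI (I : Ideal R) : MC R := ModuleCat.of R (R ⧸ I)

lemma smul_ext_zero {I : Ideal R} {M : MC R} {n : ℕ} (α : Ext.{0} (QI I) M n) (r : R)
    (hr : r ∈ I) : r • α = 0 := by
  have h0 : (r • 𝟙 (QI I) : QI I ⟶ QI I) = 0 := by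
    apply ModuleCat.hom_ext
    apply LinearMap.ext
    intro x
    obtain ⟨y, rfl⟩ := Submodule.Quotient.mk_surjective _ x
    change r • (Submodule.Quotient.mk y : R ⧸ I) = 0
    rw [← Submodule.Quotient.mk_smul, Submodule.Quotient.mk_eq_zero]
    exact I.mul_mem_right y hr
  have h1 : r • α = (r • Ext.mk₀ (𝟙 (QI I))).comp α (zero_add n) := by
    rw [Ext.smul_comp, Ext.mk₀_id_comp]
  rw [h1, ← Ext.mk₀_smul, h0, Ext.mk₀_zero, Ext.zero_comp]

/-- the quotient map `R/I → M/rM` given by an element -/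
def bet {M : MC R} (r : R) (I : Ideal R) (m : M) (hm : ∀ a ∈ I, ∃ m' : M, a • m = r • m') :
    QI I ⟶ ModuleCat.of R (QuotSMulTop r M) :=
  ModuleCat.ofHom (Submodule.liftQ I
    ((LinearMap.toSpanSingleton R (QuotSMulTop r M) (Submodule.Quotient.mk m))) (by
      intro a ha
      obtain ⟨m', hm'⟩ := hm a ha
      rw [LinearMap.mem_ker, LinearMap.toSpanSingleton_apply, ← Submodule.Quotient.mk_smul,
        Submodule.Quotient.mk_eq_zero, hm']
      exact Submodule.smul_mem_pointwise_smul m' r ⊤ trivial))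

lemma bet_one {M : MC R} (r : R) (I : Ideal R) (m : M)
    (hm : ∀ a ∈ I, ∃ m' : M, a • m = r • m') :
    (bet r I m hm).hom (Submodule.Quotient.mk (1 : R)) = Submodule.Quotient.mk m := by
  change Submodule.liftQ I _ _ (Submodule.Quotient.mk 1) = _
  rw [Submodule.liftQ_apply, LinearMap.toSpanSingleton_apply, one_smul]

lemma QI_ext {I : Ideal R} {M : MC R} (f g : QI I ⟶ M)
    (h : f.hom (Submodule.Quotient.mk (1 : R)) = g.hom (Submodule.Quotient.mk (1 : R))) : f = g := by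
  apply ModuleCat.hom_ext
  apply LinearMap.ext
  intro x
  obtain ⟨y, rfl⟩ := Submodule.Quotient.mk_surjective _ x
  have e : (Submodule.Quotient.mk y : R ⧸ I) = y • (Submodule.Quotient.mk (1 : R) : R ⧸ I) := by
    rw [← Submodule.Quotient.mk_smul, smul_eq_mul, mul_one]
  rw [e]
  exact (f.hom.map_smul y _).trans ((congrArg (fun z => y • z) h).trans (g.hom.map_smul y _).symm)

lemma mk_eq_iff {M : MC R} (r : R) (m m' : M) :
    (Submodule.Quotient.mk m : QuotSMulTop r M) = Submodule.Quotient.mk m' ↔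
      ∃ z, m - m' = r • z := by
  rw [Submodule.Quotient.eq, Submodule.mem_smul_pointwise_iff_exists]
  constructor
  · rintro ⟨z, _, hz⟩
    exact ⟨z, hz.symm⟩
  · rintro ⟨z, hz⟩
    exact ⟨z, trivial, hz.symm⟩

abbrev QM (M : MC R) (r : R) : MC R := ModuleCat.of R (QuotSMulTop r M)

/-- the class of the multiplication sequence -/
def ec {M : MC R} {r : R} (hr : IsSMulRegular M r) : Ext.{0} (QM M r) M 1 :=
  (hr.smulShortComplex_shortExact).extClass

/-- multiplication as a map -/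
def ml (M : MC R) (r : R) : M ⟶ M := (ModuleCat.smulShortComplex M r).f

lemma ml_eq (M : MC R) (r : R) : ml M r = r • 𝟙 M := by
  apply ModuleCat.hom_ext
  apply LinearMap.ext
  intro x
  rfl

/-- quotient map -/
def qu (M : MC R) (r : R) : M ⟶ QM M r := ModuleCat.ofHom (Submodule.mkQ _)

lemma ec_ex3 {M N : MC R} {r : R} (hr : IsSMulRegular M r) (x : Ext.{0} N (QM M r) 0)
    (h : x.comp (ec hr) (zero_add 1) = 0) :
    ∃ f : N ⟶ M, Ext.mk₀ (f ≫ qu M r) = x := by
  obtain ⟨y, hy⟩ := Ext.covariant_sequence_exact₃ N (hr.smulShortComplex_shortExact) x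
    (zero_add 1) h
  obtain ⟨f, rfl⟩ := (Ext.mk₀_bijective _ _).2 y
  refine ⟨f, ?_⟩
  rw [← hy]
  exact (Ext.mk₀_comp_mk₀ f (qu M r)).symm

lemma ec_ex1 {M N : MC R} {r : R} (hr : IsSMulRegular M r) (x : Ext.{0} N M 1)
    (h : x.comp (Ext.mk₀ (ml M r)) (add_zero 1) = 0) :
    ∃ f : N ⟶ QM M r, (Ext.mk₀ f).comp (ec hr) (zero_add 1) = x := by
  obtain ⟨y, hy⟩ := Ext.covariant_sequence_exact₁ N (hr.smulShortComplex_shortExact) x h
    (zero_add 1)
  obtain ⟨f, rfl⟩ := (Ext.mk₀_bijective _ _).2 y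
  exact ⟨f, hy⟩

/-- the map on quotients -/
def qmap {M M' : MC R} (r r' : R) (g : M ⟶ M') (h : ∀ m : M, ∃ z : M', g.hom (r • m) = r' • z) :
    ModuleCat.of R (QuotSMulTop r M) ⟶ ModuleCat.of R (QuotSMulTop r' M') :=
  ModuleCat.ofHom (Submodule.mapQ _ _ g.hom (by
    intro x hx
    rw [Submodule.mem_smul_pointwise_iff_exists] at hx
    obtain ⟨y, _, rfl⟩ := hx
    obtain ⟨z, hz⟩ := h y
    rw [Submodule.mem_comap, hz]
    exact Submodule.smul_mem_pointwise_smul z r' ⊤ trivial))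

lemma ec_nat {M M' : MC R} {r r' : R} (hr : IsSMulRegular M r) (hr' : IsSMulRegular M' r')
    (g1 g2 : M ⟶ M') (h : ∀ m : M, g2.hom (r • m) = r' • g1.hom m) :
    (ec hr).comp (Ext.mk₀ g1) (add_zero 1) =
      (Ext.mk₀ (qmap r r' g2 (fun m => ⟨_, h m⟩))).comp (ec hr') (zero_add 1) := by
  let S1 := ModuleCat.smulShortComplex M r
  let S2 := ModuleCat.smulShortComplex M' r'
  let F : S1 ⟶ S2 := ⟨g1, g2, qmap r r' g2 (fun m => ⟨_, h m⟩), by
    ext m
    exact (h m).symm, by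
    ext m
    rfl⟩
  exact (hr.smulShortComplex_shortExact).extClass_naturality (hr'.smulShortComplex_shortExact) F

/-- the class of degree 1 -/
def del {M : MC R} (r : R) (hr : IsSMulRegular M r) (I : Ideal R) (m : M)
    (hm : ∀ a ∈ I, ∃ m' : M, a • m = r • m') : Ext.{0} (QI I) M 1 :=
  (Ext.mk₀ (bet r I m hm)).comp (ec hr) (zero_add 1)

lemma del_congr {M : MC R} (r : R) (hr : IsSMulRegular M r) (I : Ideal R) (m m' : M)
    (hm : ∀ a ∈ I, ∃ m' : M, a • m = r • m') (hm' : ∀ a ∈ I, ∃ m'' : M, a • m' = r • m'')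
    (h : ∃ z, m - m' = r • z) : del r hr I m hm = del r hr I m' hm' := by
  unfold del
  congr 2
  apply QI_ext
  rw [bet_one, bet_one, mk_eq_iff]
  exact h

lemma del_inj {M : MC R} (r : R) (hr : IsSMulRegular M r) (I : Ideal R) (m m' : M)
    (hm : ∀ a ∈ I, ∃ m' : M, a • m = r • m') (hm' : ∀ a ∈ I, ∃ m'' : M, a • m' = r • m'')
    (h0 : ∀ f : QI I ⟶ M, f = 0)
    (h : del r hr I m hm = del r hr I m' hm') : ∃ z, m - m' = r • z := by
  have h1 : ((Ext.mk₀ (bet r I m hm) + -Ext.mk₀ (bet r I m' hm')).comp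
      (ec hr) (zero_add 1)) = 0 := by
    rw [Ext.add_comp, Ext.neg_comp, ← sub_eq_add_neg]
    exact sub_eq_zero.2 h
  obtain ⟨f, hf⟩ := ec_ex3 hr _ h1
  rw [h0 f, zero_comp, Ext.mk₀_zero] at hf
  have h2 : bet r I m hm = bet r I m' hm' := by
    apply (Ext.mk₀_bijective _ _).1
    rw [← sub_eq_zero, sub_eq_add_neg]
    exact hf.symm
  rw [← mk_eq_iff, ← bet_one r I m hm, ← bet_one r I m' hm', h2]

lemma del_gen {M M' : MC R} (r r' : R) (hr : IsSMulRegular M r) (hr' : IsSMulRegular M' r')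
    (I : Ideal R) (g1 g2 : M ⟶ M') (h : ∀ m : M, g2.hom (r • m) = r' • g1.hom m)
    (m : M) (hm : ∀ a ∈ I, ∃ m' : M, a • m = r • m')
    (hm' : ∀ a ∈ I, ∃ m'' : M', a • g2.hom m = r' • m'') :
    (del r hr I m hm).comp (Ext.mk₀ g1) (add_zero 1) = del r' hr' I (g2.hom m) hm' := by
  unfold del
  rw [Ext.comp_assoc (a₁₂ := 1) (a₂₃ := 1) (a := 1) _ _ _ (zero_add 1) (add_zero 1) (by rfl),
    ec_nat hr hr' g1 g2 h,
    ← Ext.comp_assoc (a₁₂ := 0) (a₂₃ := 1) (a := 1) _ _ _ (zero_add 0) (zero_add 1) (by rfl),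
    Ext.mk₀_comp_mk₀]
  congr 2
  apply QI_ext
  rw [bet_one]
  change (qmap r r' g2 (fun m => ⟨_, h m⟩)).hom ((bet r I m hm).hom (Submodule.Quotient.mk (1 : R))) = _
  rw [bet_one]
  rfl

lemma del_map {M M' : MC R} (r : R) (hr : IsSMulRegular M r) (hr' : IsSMulRegular M' r)
    (I : Ideal R) (g : M ⟶ M')
    (m : M) (hm : ∀ a ∈ I, ∃ m' : M, a • m = r • m')
    (hm' : ∀ a ∈ I, ∃ m'' : M', a • g.hom m = r • m'') :
    (del r hr I m hm).comp (Ext.mk₀ g) (add_zero 1) = del r hr' I (g.hom m) hm' :=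
  del_gen r r hr hr' I g g (fun m => g.hom.map_smul r m) m hm hm'

lemma del_up {M : MC R} (r r' : R) (hr : IsSMulRegular M r) (hr' : IsSMulRegular M (r * r'))
    (I : Ideal R)
    (m : M) (hm : ∀ a ∈ I, ∃ m' : M, a • m = r • m')
    (hm' : ∀ a ∈ I, ∃ m'' : M, a • (r' • m) = (r * r') • m'') :
    del r hr I m hm = del (r * r') hr' I (r' • m) hm' := by
  have h := del_gen r (r * r') hr hr' I (𝟙 M) (ModuleCat.ofHom (LinearMap.lsmul R M r'))
    (by
      intro m
      change r' • (r • m) = (r * r') • m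
      rw [← mul_smul, mul_comm]) m hm hm'
  rw [Ext.comp_mk₀_id] at h
  exact h

lemma del_pb {M : MC R} (r : R) (hr : IsSMulRegular M r) (I I' : Ideal R) (hI : I' ≤ I)
    (m : M) (hm : ∀ a ∈ I, ∃ m' : M, a • m = r • m')
    (g : QI I' ⟶ QI I) (hg : g.hom (Submodule.Quotient.mk (1 : R)) = Submodule.Quotient.mk (1 : R)) :
    (Ext.mk₀ g).comp (del r hr I m hm) (zero_add 1) =
      del r hr I' m (fun a ha => hm a (hI ha)) := by
  unfold del
  rw [← Ext.comp_assoc (a₁₂ := 0) (a₂₃ := 1) (a := 1) _ _ _ (zero_add 0) (zero_add 1) (by rfl),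
    Ext.mk₀_comp_mk₀]
  congr 2
  apply QI_ext
  rw [bet_one]
  change (bet r I m hm).hom (g.hom (Submodule.Quotient.mk (1 : R))) = _
  rw [hg, bet_one]

lemma del_surj {M : MC R} (r : R) (hr : IsSMulRegular M r) (I : Ideal R) (hI : r ∈ I)
    (γ : Ext.{0} (QI I) M 1) :
    ∃ (m : M) (hm : ∀ a ∈ I, ∃ m' : M, a • m = r • m'), γ = del r hr I m hm := by
  have h1 : γ.comp (Ext.mk₀ (ml M r)) (add_zero 1) = 0 := by
    rw [ml_eq, Ext.mk₀_smul, Ext.comp_smul]
    exact smul_ext_zero _ r hI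
  obtain ⟨f, hx⟩ := ec_ex1 hr γ h1
  obtain ⟨m, hm⟩ := Submodule.Quotient.mk_surjective _ (f.hom (Submodule.Quotient.mk (1 : R)))
  have h2 : ∀ a ∈ I, ∃ m' : M, a • m = r • m' := by
    intro a ha
    have h3 : (Submodule.Quotient.mk (a • m) : QuotSMulTop r M) = Submodule.Quotient.mk 0 := by
      rw [Submodule.Quotient.mk_smul]
      refine (congrArg (fun z => a • z) hm).trans ?_
      refine (f.hom.map_smul a _).symm.trans ?_
      have : a • (Submodule.Quotient.mk (1 : R) : R ⧸ I) = 0 := by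
        rw [← Submodule.Quotient.mk_smul, Submodule.Quotient.mk_eq_zero, smul_eq_mul, mul_one]
        exact ha
      rw [this]
      exact map_zero f.hom
    rw [mk_eq_iff, sub_zero] at h3
    exact h3
  refine ⟨m, h2, ?_⟩
  rw [← hx]
  unfold del
  congr 2
  apply QI_ext
  rw [bet_one]
  exact hm.symm

end

end Pool.Agent.H215R3.LC
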