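import Mathlib

/-!
# The field and its involution
-/

set_option autoImplicit false

namespace Pool.Agent.H215R3.LC

noncomputable section

open MvPolynomial

abbrev P2 := MvPolynomial (Fin 2) (ZMod 2)
abbrev k2 := FractionRing P2

instance : CharP k2 2 := charP_of_injective_algebraMap (IsFractionRing.injective P2 k2) 2

/-- the swap -/
def tau : k2 →+* k2 :=
  (IsFractionRing.ringEquivOfRingEquiv
    (renameEquiv (ZMod 2) (Equiv.swap (0 : Fin 2) 1)).toRingEquiv : k2 ≃+* k2).toRingHom

lemma tau_alg (p : P2) : tau (algebraMap P2 k2 p) =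
    algebraMap P2 k2 (rename (Equiv.swap (0 : Fin 2) 1) p) :=
  IsFractionRing.ringEquivOfRingEquiv_algebraMap _ _

def aa : k2 := algebraMap P2 k2 (X 0)
def bb : k2 := algebraMap P2 k2 (X 1)

lemma tau_aa : tau aa = bb := by
  rw [aa, tau_alg, rename_X, Equiv.swap_apply_left]
  rfl

lemma tau_tau (x : k2) : tau (tau x) = x := by
  obtain ⟨p, q, hq, rfl⟩ := IsFractionRing.div_surjective (A := P2) x
  have h : ∀ r : P2, rename (Equiv.swap (0 : Fin 2) 1) (rename (Equiv.swap (0 : Fin 2) 1) r) = r := by
    intro r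
    rw [rename_rename]
    have : (⇑(Equiv.swap (0 : Fin 2) 1)) ∘ (⇑(Equiv.swap (0 : Fin 2) 1)) = id := by
      ext i
      simp
    rw [this, rename_id_apply]
  rw [map_div₀, map_div₀, tau_alg, tau_alg, tau_alg, tau_alg, h, h]

lemma two_P2 : (2 : P2) = 0 := by
  have : CharP P2 2 := inferInstance
  exact CharTwo.two_eq_zero

lemma indep_poly (w v z : P2) (h : w ^ 2 + v ^ 2 * X 0 + z ^ 2 * X 1 = 0) :
    w = 0 ∧ v = 0 ∧ z = 0 := by
  have h0 := congrArg (pderiv (0 : Fin 2)) h
  have h1 := congrArg (pderiv (1 : Fin 2)) h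
  have e : ∀ (i : Fin 2) (p : P2), pderiv i (p ^ 2) = 0 := by
    intro i p
    rw [pow_two, Derivation.leibniz, smul_eq_mul, ← two_mul, two_P2, zero_mul]
  rw [map_add, map_add, e, Derivation.leibniz, Derivation.leibniz, e, e, map_zero,
    pderiv_X_self, pderiv_X_of_ne (by decide)] at h0
  rw [map_add, map_add, e, Derivation.leibniz, Derivation.leibniz, e, e, map_zero,
    pderiv_X_self, pderiv_X_of_ne (by decide)] at h1
  simp at h0 h1
  subst h0 h1
  simp at h
  exact ⟨h, rfl, rfl⟩

lemma indep (w v z : k2) (h : w ^ 2 + v ^ 2 * aa + z ^ 2 * bb = 0) : w = 0 ∧ v = 0 ∧ z = 0 := by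
  obtain ⟨p, q, hq, rfl⟩ := IsFractionRing.div_surjective (A := P2) w
  obtain ⟨p', q', hq', rfl⟩ := IsFractionRing.div_surjective (A := P2) v
  obtain ⟨p'', q'', hq'', rfl⟩ := IsFractionRing.div_surjective (A := P2) z
  have n : algebraMap P2 k2 q ≠ 0 := by
    simpa using nonZeroDivisors.ne_zero hq
  have n' : algebraMap P2 k2 q' ≠ 0 := by
    simpa using nonZeroDivisors.ne_zero hq'
  have n'' : algebraMap P2 k2 q'' ≠ 0 := by
    simpa using nonZeroDivisors.ne_zero hq''
  have key : (p * q' * q'') ^ 2 + (p' * q * q'') ^ 2 * X 0 + (p'' * q * q') ^ 2 * X 1 = 0 := by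
    apply IsFractionRing.injective P2 k2
    rw [map_zero, map_add, map_add, map_mul, map_mul, map_pow, map_pow, map_pow]
    simp only [map_mul]
    have h2 := congrArg (fun t => t * (algebraMap P2 k2 q * algebraMap P2 k2 q' *
      algebraMap P2 k2 q'') ^ 2) h
    simp only [zero_mul] at h2
    rw [← h2, aa, bb]
    field_simp
  obtain ⟨h1, h2, h3⟩ := indep_poly _ _ _ key
  have m := nonZeroDivisors.ne_zero hq
  have m' := nonZeroDivisors.ne_zero hq'
  have m'' := nonZeroDivisors.ne_zero hq''
  have e1 : p = 0 := by simpa [m', m''] using h1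
  have e2 : p' = 0 := by simpa [m, m''] using h2
  have e3 : p'' = 0 := by simpa [m, m'] using h3
  subst e1 e2 e3
  simp

lemma ab_ne : aa + bb ≠ 0 := by
  intro h
  have := (indep 0 1 1 (by simpa using h)).2.1
  exact one_ne_zero this

/-- the ring with the action through Frobenius -/
def FV (K : Type) := K

instance (K : Type) [CommRing K] : AddCommGroup (FV K) := inferInstanceAs (AddCommGroup K)

instance (K : Type) [CommRing K] [CharP K 2] : Module K (FV K) :=
  show Module K K from Module.compHom K (frobenius K 2)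

/-- existence of a splitting of Frobenius on a field of characteristic two -/
lemma exists_split (K : Type) [CommRing K] [CharP K 2] (hK : IsField K) :
    ∃ l : K →+ K, (∀ c d, l (c ^ 2 * d) = c * l d) ∧ l 1 = 1 := by
  letI : Field K := hK.toField
  let f : K →ₗ[K] FV K :=
    { toFun := fun c => (c ^ 2 : K)
      map_add' := fun x y => map_add (frobenius K 2) x y
      map_smul' := fun r x => map_mul (frobenius K 2) r x }
  have hf : LinearMap.ker f = ⊥ := by
    rw [LinearMap.ker_eq_bot']
    intro m hm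
    have : (m ^ 2 : K) = 0 := hm
    exact pow_eq_zero_iff (two_ne_zero) |>.1 this
  obtain ⟨g, hg⟩ := LinearMap.exists_leftInverse_of_injective f hf
  refine ⟨g.toAddMonoidHom, fun c d => ?_, ?_⟩
  · exact g.map_smul c (d : FV K)
  · have := congrArg (fun ψ => ψ (1 : K)) hg
    have h1 : g ((1 : K) ^ 2 : K) = 1 := this
    rw [one_pow] at h1
    exact h1

end

end Pool.Agent.H215R3.LC
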