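import Mathlib
import Pool.Agent.H215R3.DF.Noeth

/-!
# Gluing two branches of `B[[u,v]]`
-/

set_option autoImplicit false

namespace Pool.Agent.H215R3.LC

open PowerSeries

noncomputable section

/-- Noetherianity through a surjection -/
lemma noeth_sur {C B : Type} [CommRing C] [CommRing B] (A : Subring C) (B1 : Subring B)
    (a : C →+* B) (ha : Function.Surjective a) (h1 : ∀ b ∈ B1, ∃ r ∈ A, a r = b)
    [IsNoetherian B1 B] : IsNoetherian A (C ⧸ RingHom.ker a) := by
  rw [isNoetherian_iff']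
  let Φ : Submodule A (C ⧸ RingHom.ker a) → Submodule B1 B := fun N =>
    { carrier := {b | ∃ c, a c = b ∧ (Ideal.Quotient.mk (RingHom.ker a) c) ∈ N}
      zero_mem' := ⟨0, map_zero a, by rw [map_zero]; exact N.zero_mem⟩
      add_mem' := by
        rintro _ _ ⟨x, rfl, hx⟩ ⟨y, rfl, hy⟩
        exact ⟨x + y, map_add a x y, by rw [map_add]; exact N.add_mem hx hy⟩
      smul_mem' := by
        rintro ⟨b, hb⟩ _ ⟨x, rfl, hx⟩
        obtain ⟨r, hr, rfl⟩ := h1 b hb
        exact ⟨r * x, map_mul a r x, N.smul_mem (⟨r, hr⟩ : A) hx⟩ }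
  have hΦ : ∀ N N' : Submodule A (C ⧸ RingHom.ker a), Φ N ≤ Φ N' → N ≤ N' := by
    intro N N' h x hx
    obtain ⟨c, rfl⟩ := Ideal.Quotient.mk_surjective x
    obtain ⟨c', hc', hc''⟩ := h (⟨c, rfl, hx⟩ : a c ∈ Φ N)
    have : Ideal.Quotient.mk (RingHom.ker a) c' = Ideal.Quotient.mk (RingHom.ker a) c := by
      rw [Ideal.Quotient.eq, RingHom.mem_ker, map_sub, hc', sub_self]
    rwa [this] at hc''
  have hmono : Monotone Φ := by
    intro N N' h x hx
    obtain ⟨c, hc, hc'⟩ := hx
    exact ⟨c, hc, h hc'⟩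
  have hst : StrictMono Φ := by
    intro N N' h
    exact lt_of_le_not_ge (hmono h.le) (fun h' => h.not_ge (hΦ _ _ h'))
  exact hst.wellFoundedGT

variable {B : Type} [CommRing B]

abbrev TT (B : Type) [CommRing B] := PowerSeries B
abbrev CC (B : Type) [CommRing B] := PowerSeries (PowerSeries B)

/-- `h(0,t)` -/
abbrev eu : CC B →+* TT B := PowerSeries.constantCoeff
/-- `h(t,0)` -/
abbrev ev : CC B →+* TT B := PowerSeries.map PowerSeries.constantCoeff
/-- `h(0,0)` -/
abbrev e0 : TT B →+* B := PowerSeries.constantCoeff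

lemma e0_ev (h : CC B) : e0 (ev h) = e0 (eu h) := by
  rw [← PowerSeries.coeff_zero_eq_constantCoeff_apply, PowerSeries.coeff_map,
    PowerSeries.coeff_zero_eq_constantCoeff_apply]

/-- from the first branch -/
def iu : TT B →+* CC B := PowerSeries.map PowerSeries.C
/-- from the second branch -/
def iv : TT B →+* CC B := PowerSeries.C

lemma ev_iu (P : TT B) : ev (iu P) = P := by
  ext n
  rw [iu, PowerSeries.coeff_map, PowerSeries.coeff_map, PowerSeries.constantCoeff_C]

lemma eu_iu (P : TT B) : eu (iu P) = PowerSeries.C (e0 P) := by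
  rw [iu]
  change PowerSeries.constantCoeff _ = _
  rw [← PowerSeries.coeff_zero_eq_constantCoeff_apply, PowerSeries.coeff_map,
    PowerSeries.coeff_zero_eq_constantCoeff_apply]

lemma eu_iv (P : TT B) : eu (iv P) = P := PowerSeries.constantCoeff_C P

lemma ev_iv (P : TT B) : ev (iv P) = PowerSeries.C (e0 P) := PowerSeries.map_C _ _

/-- constants -/
def ic : B →+* CC B := (PowerSeries.C).comp PowerSeries.C

lemma ev_ic (b : B) : ev (ic b) = PowerSeries.C b := by
  change ev (iv (PowerSeries.C b)) = _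
  rw [ev_iv, PowerSeries.constantCoeff_C]

lemma eu_ic (b : B) : eu (ic b) = PowerSeries.C b := eu_iv _

variable (σ : B →+* B) (B1 : Subring B)

/-- the glued ring -/
def GG : Subring (CC B) where
  carrier := {h | ev h = PowerSeries.map σ (eu h) ∧ e0 (eu h) ∈ B1}
  one_mem' := ⟨by rw [map_one, map_one, map_one], by rw [map_one, map_one]; exact B1.one_mem⟩
  zero_mem' := ⟨by rw [map_zero, map_zero, map_zero], by rw [map_zero, map_zero]; exact B1.zero_mem⟩
  mul_mem' := by
    rintro x y ⟨h1, h2⟩ ⟨h3, h4⟩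
    exact ⟨by rw [map_mul, map_mul, map_mul, h1, h3], by rw [map_mul, map_mul]; exact mul_mem h2 h4⟩
  add_mem' := by
    rintro x y ⟨h1, h2⟩ ⟨h3, h4⟩
    exact ⟨by rw [map_add, map_add, map_add, h1, h3], by rw [map_add, map_add]; exact add_mem h2 h4⟩
  neg_mem' := by
    rintro x ⟨h1, h2⟩
    exact ⟨by rw [map_neg, map_neg, map_neg, h1], by rw [map_neg, map_neg]; exact neg_mem h2⟩

variable {σ B1}

lemma mem_GG (h : CC B) : h ∈ GG σ B1 ↔ ev h = PowerSeries.map σ (eu h) ∧ e0 (eu h) ∈ B1 :=
  Iff.rfl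

lemma ic_mem (hσ : ∀ b ∈ B1, σ b = b) (b : B) (hb : b ∈ B1) : ic b ∈ GG σ B1 := by
  refine ⟨?_, ?_⟩
  · rw [ev_ic, eu_ic, PowerSeries.map_C, hσ b hb]
  · rw [eu_ic, PowerSeries.constantCoeff_C]
    exact hb

/-- the element determined by its second branch -/
lemma br_mem (Q : TT B) (hQ : e0 Q = 0) : iu (PowerSeries.map σ Q) + iv Q ∈ GG σ B1 := by
  have h : e0 (PowerSeries.map σ Q) = 0 := by
    change PowerSeries.constantCoeff _ = _
    rw [← PowerSeries.coeff_zero_eq_constantCoeff_apply, PowerSeries.coeff_map,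
      PowerSeries.coeff_zero_eq_constantCoeff_apply]
    exact (congrArg σ hQ).trans (map_zero σ)
  refine ⟨?_, ?_⟩
  · rw [map_add, map_add, ev_iu, eu_iu, ev_iv, eu_iv, hQ, h, map_zero, zero_add, add_zero]
  · rw [map_add, eu_iu, eu_iv, h, map_zero, zero_add, hQ]
    exact B1.zero_mem

lemma ker_mem (h : CC B) (h1 : ev h = 0) (h2 : eu h = 0) : h ∈ GG σ B1 := by
  refine ⟨by rw [h1, h2, map_zero], by rw [h2, map_zero]; exact B1.zero_mem⟩

/-- series with constant term in the subring -/
def T1 (B1 : Subring B) : Subring (TT B) := B1.comap (e0 (B := B))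

lemma mem_T1 (P : TT B) : P ∈ T1 B1 ↔ e0 P ∈ B1 := Iff.rfl

instance finT1 [Module.Finite B1 B] : Module.Finite (T1 B1) (TT B) := by
  obtain ⟨s, hs⟩ := (Module.Finite.fg_top : (⊤ : Submodule B1 B).FG)
  classical
  refine ⟨⟨insert 1 (s.image PowerSeries.C), ?_⟩⟩
  set M := Submodule.span (T1 B1) ((insert 1 (s.image PowerSeries.C) : Finset (TT B)) : Set (TT B))
    with hM
  have h1 : (1 : TT B) ∈ M := Submodule.subset_span (by simp)
  have h2 : ∀ b : B, (PowerSeries.C b : TT B) ∈ M := by
    intro b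
    have hb : b ∈ Submodule.span B1 (s : Set B) := by rw [hs]; trivial
    induction hb using Submodule.span_induction with
    | mem x hx => exact Submodule.subset_span (by simp; right; exact ⟨x, hx, rfl⟩)
    | zero => rw [map_zero]; exact M.zero_mem
    | add x y _ _ hx hy => rw [map_add]; exact M.add_mem hx hy
    | smul c x _ hx =>
      have : (⟨PowerSeries.C c.1, by
        rw [mem_T1, PowerSeries.constantCoeff_C]; exact c.2⟩ : T1 B1) • (PowerSeries.C x : TT B) =
          PowerSeries.C (c • x) := (map_mul PowerSeries.C c.1 x).symm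
      rw [← this]
      exact M.smul_mem _ hx
  rw [eq_top_iff]
  intro P _
  have h3 : P - PowerSeries.C (e0 P) ∈ T1 B1 := by
    rw [mem_T1, map_sub, PowerSeries.constantCoeff_C, sub_self]
    exact B1.zero_mem
  have h4 : P = (⟨_, h3⟩ : T1 B1) • (1 : TT B) + PowerSeries.C (e0 P) := by
    change P = (P - PowerSeries.C (e0 P)) * 1 + PowerSeries.C (e0 P)
    ring
  rw [h4]
  exact M.add_mem (M.smul_mem _ h1) (h2 _)

lemma noethT1 [IsNoetherianRing B] [IsNoetherianRing B1] [Module.Finite B1 B] :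
    IsNoetherian (T1 B1) (TT B) := by
  have : IsNoetherian B1 B := isNoetherian_of_isNoetherianRing_of_finite B1 B
  have h1 : IsNoetherian (T1 B1) ((TT B) ⧸ RingHom.ker (e0 (B := B))) :=
    noeth_sur (T1 B1) B1 (e0 (B := B)) PowerSeries.constantCoeff_surj (fun b hb =>
      ⟨PowerSeries.C b, by rw [mem_T1, PowerSeries.constantCoeff_C]; exact hb,
        PowerSeries.constantCoeff_C b⟩)
  exact DF.noeth_of (T1 B1) (RingHom.ker (e0 (B := B))) (fun x hx => by
    rw [mem_T1, (RingHom.mem_ker).1 hx]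
    exact B1.zero_mem) h1

lemma e0_map (P : TT B) : e0 (PowerSeries.map σ P) = σ (e0 P) := by
  change PowerSeries.constantCoeff _ = _
  rw [← PowerSeries.coeff_zero_eq_constantCoeff_apply, PowerSeries.coeff_map,
    PowerSeries.coeff_zero_eq_constantCoeff_apply]

lemma finGG (hσ : ∀ b ∈ B1, σ b = b) (hσ2 : ∀ b, σ (σ b) = b) [Module.Finite B1 B] :
    Module.Finite (GG σ B1) (CC B) := by
  obtain ⟨s, hs⟩ := (Module.Finite.fg_top : (⊤ : Submodule B1 B).FG)
  classical
  refine ⟨⟨s.image ic ∪ s.image (fun b => ic b * PowerSeries.X), ?_⟩⟩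
  set M := Submodule.span (GG σ B1)
    ((s.image ic ∪ s.image (fun b => ic b * PowerSeries.X) : Finset (CC B)) : Set (CC B)) with hM
  have h2 : ∀ b : B, (ic b : CC B) ∈ M := by
    intro b
    have hb : b ∈ Submodule.span B1 (s : Set B) := by rw [hs]; trivial
    induction hb using Submodule.span_induction with
    | mem x hx => exact Submodule.subset_span (by
        rw [Finset.coe_union]
        left
        rw [Finset.coe_image]
        exact ⟨x, hx, rfl⟩)
    | zero => rw [map_zero]; exact M.zero_mem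
    | add x y _ _ hx hy => rw [map_add]; exact M.add_mem hx hy
    | smul c x _ hx =>
      have : (⟨ic c.1, ic_mem hσ c.1 c.2⟩ : GG σ B1) • (ic x : CC B) =
          ic (c • x) := (map_mul ic c.1 x).symm
      rw [← this]
      exact M.smul_mem _ hx
  have h3 : ∀ b : B, (ic b * PowerSeries.X : CC B) ∈ M := by
    intro b
    have hb : b ∈ Submodule.span B1 (s : Set B) := by rw [hs]; trivial
    induction hb using Submodule.span_induction with
    | mem x hx => exact Submodule.subset_span (by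
        rw [Finset.coe_union]
        right
        rw [Finset.coe_image]
        exact ⟨x, hx, rfl⟩)
    | zero => rw [map_zero, zero_mul]; exact M.zero_mem
    | add x y _ _ hx hy => rw [map_add, add_mul]; exact M.add_mem hx hy
    | smul c x _ hx =>
      have : (⟨ic c.1, ic_mem hσ c.1 c.2⟩ : GG σ B1) • (ic x * PowerSeries.X : CC B) =
          ic (c • x) * PowerSeries.X := by
        change ic c.1 * (ic x * PowerSeries.X) = ic (c.1 * x) * PowerSeries.X
        rw [map_mul]
        ring
      rw [← this]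
      exact M.smul_mem _ hx
  have h4 : (1 : CC B) ∈ M := by
    have := h2 1
    rwa [map_one] at this
  have h5 : (PowerSeries.X : CC B) ∈ M := by
    have := h3 1
    rwa [map_one, one_mul] at this
  have h6 : ∀ g ∈ GG σ B1, g ∈ M := by
    intro g hg
    have : (⟨g, hg⟩ : GG σ B1) • (1 : CC B) = g := mul_one g
    rw [← this]
    exact M.smul_mem _ h4
  have h7 : ∀ g ∈ GG σ B1, g * PowerSeries.X ∈ M := by
    intro g hg
    exact M.smul_mem (⟨g, hg⟩ : GG σ B1) h5
  have h8 : ∀ P : TT B, iu (P) * PowerSeries.X ∈ M := by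
    intro P
    set P3 : TT B := P - PowerSeries.C (e0 P) with hP3
    have hP30 : e0 P3 = 0 := by rw [hP3, map_sub, PowerSeries.constantCoeff_C, sub_self]
    set Q : TT B := PowerSeries.map σ P3 with hQ
    have hQ0 : e0 Q = 0 := by rw [hQ, e0_map, hP30, map_zero]
    have hQ' : PowerSeries.map σ Q = P3 := by
      ext n
      rw [hQ, PowerSeries.coeff_map, PowerSeries.coeff_map, hσ2]
    have e : iu P * PowerSeries.X = ic (e0 P) * PowerSeries.X +
        (iu (PowerSeries.map σ Q) + iv Q) * PowerSeries.X - iv Q * PowerSeries.X := by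
      have : iu P = ic (e0 P) + iu P3 := by
        rw [hP3, map_sub]
        have : iu (PowerSeries.C (e0 P)) = ic (e0 P) := PowerSeries.map_C _ _
        rw [this]
        ring
      rw [hQ', this]
      ring
    rw [e]
    refine M.sub_mem (M.add_mem (h3 _) (h7 _ (br_mem Q hQ0))) (h6 _ (ker_mem _ ?_ ?_))
    · rw [map_mul, ev_iv, hQ0, map_zero, zero_mul]
    · rw [map_mul]
      have : eu (PowerSeries.X : CC B) = 0 := PowerSeries.constantCoeff_X
      rw [this, mul_zero]
  rw [eq_top_iff]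
  intro c _
  set Q : TT B := eu c - PowerSeries.C (e0 (eu c)) with hQ
  have hQ0 : e0 Q = 0 := by rw [hQ, map_sub, PowerSeries.constantCoeff_C, sub_self]
  set P : TT B := ev c - PowerSeries.C (e0 (eu c)) - PowerSeries.map σ Q with hP
  have hP0 : e0 P = 0 := by
    rw [hP, map_sub, map_sub, PowerSeries.constantCoeff_C, e0_ev, sub_self, e0_map, hQ0, map_zero,
      sub_self]
  obtain ⟨P', hP'⟩ := PowerSeries.X_dvd_iff.2 hP0
  have hiu : iu P = iu P' * PowerSeries.X := by
    rw [hP', map_mul, mul_comm]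
    congr 1
    exact PowerSeries.map_X _
  have e : c = ic (e0 (eu c)) + (iu (PowerSeries.map σ Q) + iv Q) + iu P +
      (c - (ic (e0 (eu c)) + (iu (PowerSeries.map σ Q) + iv Q) + iu P)) := by ring
  rw [e]
  refine M.add_mem (M.add_mem (M.add_mem (h2 _) (h6 _ (br_mem Q hQ0))) ?_) (h6 _ (ker_mem _ ?_ ?_))
  · rw [hiu]
    exact h8 _
  · rw [map_sub, map_add, map_add, map_add, ev_ic, ev_iu, ev_iv, ev_iu, hQ0, map_zero, hP]
    ring
  · rw [map_sub, map_add, map_add, map_add, eu_ic, eu_iu, eu_iv, eu_iu, hP0, map_zero, e0_map, hQ0,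
      map_zero, map_zero, hQ]
    ring

theorem noethGG (hσ : ∀ b ∈ B1, σ b = b) (hσ2 : ∀ b, σ (σ b) = b) [Module.Finite B1 B]
    [IsNoetherianRing B] [IsNoetherianRing B1] : IsNoetherianRing (GG σ B1) := by
  have := finGG hσ hσ2
  have hT : IsNoetherian (T1 B1) (TT B) := noethT1
  have h1 : IsNoetherian (GG σ B1) ((CC B) ⧸ RingHom.ker (eu (B := B))) :=
    noeth_sur (GG σ B1) (T1 B1) (eu (B := B)) PowerSeries.constantCoeff_surj (by
      intro Q hQ
      have hQ0 : e0 (Q - PowerSeries.C (e0 Q)) = 0 := by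
        rw [map_sub, PowerSeries.constantCoeff_C, sub_self]
      refine ⟨iu (PowerSeries.map σ (Q - PowerSeries.C (e0 Q))) + iv (Q - PowerSeries.C (e0 Q)) +
        ic (e0 Q), add_mem (br_mem _ hQ0) (ic_mem hσ _ hQ), ?_⟩
      rw [map_add, map_add, eu_iu, eu_iv, eu_ic, e0_map, hQ0, map_zero, map_zero]
      ring)
  have h2 : IsNoetherian (GG σ B1) ((CC B) ⧸ RingHom.ker (ev (B := B))) :=
    noeth_sur (GG σ B1) (T1 B1) (ev (B := B)) (fun P => ⟨iu P, ev_iu P⟩) (by
      intro P hP
      have hQ0 : e0 (PowerSeries.map σ (P - PowerSeries.C (e0 P))) = 0 := by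
        rw [e0_map, map_sub, PowerSeries.constantCoeff_C, sub_self, map_zero]
      refine ⟨iu (PowerSeries.map σ (PowerSeries.map σ (P - PowerSeries.C (e0 P)))) +
        iv (PowerSeries.map σ (P - PowerSeries.C (e0 P))) +
        ic (e0 P), add_mem (br_mem _ hQ0) (ic_mem hσ _ hP), ?_⟩
      rw [map_add, map_add, ev_iu, ev_iv, ev_ic, hQ0, map_zero]
      have : PowerSeries.map σ (PowerSeries.map σ (P - PowerSeries.C (e0 P))) =
          P - PowerSeries.C (e0 P) := by
        ext n
        rw [PowerSeries.coeff_map, PowerSeries.coeff_map, hσ2]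
      rw [this]
      ring)
  exact DF.noethRing_of (GG σ B1) (RingHom.ker (ev (B := B)) ⊓ RingHom.ker (eu (B := B)))
    (fun x hx => ker_mem x hx.1 hx.2) (DF.noeth_inf _ _ _ h2 h1)

end

end Pool.Agent.H215R3.LC
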