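import Pool.Agent.H215R3.LC.Old

/-!
# Local cohomology in terms of `Abelian.Ext`
-/

set_option autoImplicit false

namespace Pool.Agent.H215R3.LC

open CategoryTheory Limits Opposite

noncomputable section

variable {R : Type} [CommRing R] (J : Ideal R)

/-- the module `R/J^t` -/
abbrev QJ (t : ℕ) : MC R := ModuleCat.of R (R ⧸ J ^ t)

/-- the projection -/
def prJ {s t : ℕ} (h : t ≤ s) : QJ J s ⟶ QJ J t :=
  ModuleCat.ofHom (Submodule.mapQ (J ^ s) (J ^ t) LinearMap.id (Ideal.pow_le_pow_right h))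

/-- the diagram whose colimit is the local cohomology -/
abbrev DG (i : ℕ) : (ℕᵒᵖ)ᵒᵖ ⥤ MC R ⥤ MC R :=
  localCohomology.diagram (localCohomology.idealPowersDiagram J) i

/-- the canonical map to local cohomology -/
def ioJ (i t : ℕ) (M : MC R) :
    ((Ext R (MC R) i).obj (op (QJ J t))).obj M ⟶ (localCohomology J i).obj M :=
  (colimit.ι (DG J i) (op (op t))).app M

lemma ioJ_nat (i t : ℕ) {M N : MC R} (g : M ⟶ N) :
    ioJ J i t M ≫ (localCohomology J i).map g =
      ((Ext R (MC R) i).obj (op (QJ J t))).map g ≫ ioJ J i t N :=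
  ((colimit.ι (DG J i) (op (op t))).naturality g).symm

lemma exists_ioJ (i : ℕ) (M : MC R) (x : (localCohomology J i).obj M) :
    ∃ (t : ℕ) (ξ : ((Ext R (MC R) i).obj (op (QJ J t))).obj M), (ioJ J i t M).hom ξ = x := by
  let hc := isColimitOfPreserves ((evaluation (MC R) (MC R)).obj M) (colimit.isColimit (DG J i))
  obtain ⟨j, y, hy⟩ := Concrete.isColimit_exists_rep (DG J i ⋙ (evaluation (MC R) (MC R)).obj M)
    hc x
  exact ⟨j.unop.unop, y, hy⟩

lemma ioJ_zero_iff (i t : ℕ) (M : MC R) (ξ : ((Ext R (MC R) i).obj (op (QJ J t))).obj M) :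
    (ioJ J i t M).hom ξ = 0 ↔
      ∃ (s : ℕ) (h : t ≤ s), (((Ext R (MC R) i).map (prJ J h).op).app M).hom ξ = 0 := by
  let hc := isColimitOfPreserves ((evaluation (MC R) (MC R)).obj M) (colimit.isColimit (DG J i))
  have key := Concrete.isColimit_rep_eq_iff_exists
    (DG J i ⋙ (evaluation (MC R) (MC R)).obj M) (i := op (op t)) (j := op (op t)) hc ξ 0
  constructor
  · intro h
    obtain ⟨k, f, g, hk⟩ := key.1 (h.trans (map_zero (ioJ J i t M).hom).symm)
    refine ⟨k.unop.unop, leOfHom f.unop.unop, ?_⟩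
    refine Eq.trans ?_ (hk.trans (map_zero
      (((DG J i ⋙ (evaluation (MC R) (MC R)).obj M).map g).hom)))
    rfl
  · rintro ⟨s, h, hs⟩
    refine (key.2 ⟨op (op s), (homOfLE h).op.op, (homOfLE h).op.op, ?_⟩).trans
      (map_zero (ioJ J i t M).hom)
    exact hs.trans (map_zero
      (((DG J i ⋙ (evaluation (MC R) (MC R)).obj M).map (homOfLE h).op.op).hom)).symm

/-- pullback along the projection -/
def pb {i : ℕ} {s t : ℕ} (h : t ≤ s) {M : MC R} (α : Abelian.Ext.{0} (QJ J t) M i) :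
    Abelian.Ext.{0} (QJ J s) M i :=
  (Abelian.Ext.mk₀ (prJ J h)).comp α (zero_add i)

theorem injective_of (i : ℕ) {M N : MC R} (φ : M ⟶ N)
    (H : ∀ (t : ℕ) (α : Abelian.Ext.{0} (QJ J t) M i),
      (α.comp (Abelian.Ext.mk₀ φ) (add_zero i) = 0) →
      ∃ (s : ℕ) (h : t ≤ s), pb J h α = 0) :
    Function.Injective ((localCohomology J i).map φ).hom := by
  rw [injective_iff_map_eq_zero]
  intro x hx
  obtain ⟨t, ξ, rfl⟩ := exists_ioJ J i M x
  have h1 : (ioJ J i t N).hom ((((Ext R (MC R) i).obj (op (QJ J t))).map φ).hom ξ) = 0 := by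
    have := congrArg (fun ψ => ψ.hom ξ) (ioJ_nat J i t φ)
    exact this.symm.trans hx
  obtain ⟨s, h, hs⟩ := (ioJ_zero_iff J i t N _).1 h1
  obtain ⟨α, hα⟩ := exists_Lk ((((Ext R (MC R) i).map (prJ J h).op).app M).hom ξ)
  have h2 := (hα.mapY φ).zero_iff.1 (by
    have := congrArg (fun ψ => ψ.hom ξ) (((Ext R (MC R) i).map (prJ J h).op).naturality φ)
    exact this.symm.trans hs)
  obtain ⟨s', h', hs'⟩ := H s α h2
  have h3 := (hα.mapX (prJ J h')).zero_iff.2 hs'
  have h4 : (ioJ J i s M).hom ((((Ext R (MC R) i).map (prJ J h).op).app M).hom ξ) = 0 :=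
    (ioJ_zero_iff J i s M _).2 ⟨s', h', h3⟩
  have h5 := (DG J i)
  have h6 : ((Ext R (MC R) i).map (prJ J h).op).app M ≫ ioJ J i s M = ioJ J i t M := by
    have := colimit.w (DG J i) (homOfLE h).op.op
    exact congrArg (fun ψ => ψ.app M) this
  exact (congrArg (fun ψ => ψ.hom ξ) h6).symm.trans h4

theorem not_injective_of (i : ℕ) {M N : MC R} (φ : M ⟶ N) (t : ℕ)
    (α : Abelian.Ext.{0} (QJ J t) M i)
    (h0 : ∃ (s : ℕ) (h : t ≤ s),
      (pb J h α).comp (Abelian.Ext.mk₀ φ) (add_zero i) = 0)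
    (h1 : ∀ (s : ℕ) (h : t ≤ s), pb J h α ≠ 0) :
    ¬ Function.Injective ((localCohomology J i).map φ).hom := by
  intro hinj
  rw [injective_iff_map_eq_zero] at hinj
  obtain ⟨ξ, hξ⟩ := exists_Lk' α
  have h2 : (ioJ J i t M).hom ξ = 0 := by
    apply hinj
    have e := congrArg (fun ψ => ψ.hom ξ) (ioJ_nat J i t φ)
    refine e.trans ?_
    obtain ⟨s, h, hs⟩ := h0
    refine (ioJ_zero_iff J i t N _).2 ⟨s, h, ?_⟩
    have h3 := ((hξ.mapX (prJ J h)).mapY φ).zero_iff.2 hs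
    have := congrArg (fun ψ => ψ.hom ξ) (((Ext R (MC R) i).map (prJ J h).op).naturality φ)
    exact this.trans h3
  obtain ⟨s, h, hs⟩ := (ioJ_zero_iff J i t M _).1 h2
  exact h1 s h ((hξ.mapX (prJ J h)).zero_iff.1 hs)

end

end Pool.Agent.H215R3.LC
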