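import Pool.Agent.H215R3.LC.RRing

/-!
# Failure of F-injectivity
-/

set_option autoImplicit false

namespace Pool.Agent.H215R3.LC

open CategoryTheory

noncomputable section

/-- Frobenius on a module through a ring homomorphism -/
def frM {R A : Type} [CommRing R] [CommRing A] (ρ : R →+* A) (h2 : (2 : A) = 0) (F : R →+* R)
    (hF : ∀ x, F x = x ^ 2) : Md ρ ⟶ (ModuleCat.restrictScalars F).obj (Md ρ) :=
  mkG (M := Md ρ) (N := (ModuleCat.restrictScalars F).obj (Md ρ))
    (fun a : A => (a ^ 2 : A)) (fun (x y : A) => sq_add_of h2 x y) (by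
        intro r (a : A)
        have : (ρ r * a) ^ 2 = ρ (F r) * a ^ 2 := by rw [hF, map_pow, mul_pow]
        exact this)

/-- the submodule `R₀` of `B'` -/
def p0 : Submodule RR (Md rB) where
  carrier := {z : BR | z ∈ B1R}
  zero_mem' := B1R.zero_mem
  add_mem' := fun hx hy => B1R.add_mem hx hy
  smul_mem' := fun r _ hx => B1R.mul_mem (rB_mem r) hx

lemma mem_p0 (z : BR) : (z : Md rB) ∈ p0 ↔ z ∈ B1R := Iff.rfl

/-- first component of the gluing map -/
def th1 : Md rC ⟶ Md rT :=
  mkM rC rT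
    { toFun := fun c : CC BR => ev c - PowerSeries.map sR (eu c)
      map_zero' := by rw [map_zero, map_zero, map_zero, sub_zero]
      map_add' := fun x y => by rw [map_add, map_add, map_add]; ring }
    (fun r c => by
      change ev (r.1 * c) - PowerSeries.map sR (eu (r.1 * c)) =
        ev r.1 * (ev c - PowerSeries.map sR (eu c))
      rw [map_mul, map_mul, map_mul, ← r.2.1]
      ring)

/-- the value at the origin -/
def th2' : Md rC ⟶ Md rB :=
  mkM rC rB
    { toFun := fun c : CC BR => e0 (eu c)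
      map_zero' := by rw [map_zero, map_zero]
      map_add' := fun x y => by rw [map_add, map_add] }
    (fun r c => by
      change e0 (eu (r.1 * c)) = rB r * e0 (eu c)
      rw [map_mul, map_mul, rB_eq])

/-- the value at the origin modulo `R₀` -/
def th2 : Md rC ⟶ QG (Md rB) p0 := th2' ≫ qG (Md rB) p0

/-- the value at the origin -/
def evm : Md rT ⟶ Md rB := mkM rT rB (e0 (B := BR)).toAddMonoidHom (fun r c => by
  change e0 (rT r * c) = rB r * e0 c
  rw [map_mul]
  rfl)

/-- `σ - 1` -/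
def sm' : Md rB ⟶ Md rB :=
  mkM rB rB
    { toFun := fun z : BR => sR z - z
      map_zero' := by rw [map_zero, sub_zero]
      map_add' := fun x y => by rw [map_add]; ring }
    (fun r z => by
      change sR (rB r * z) - rB r * z = rB r * (sR z - z)
      rw [map_mul, sR_B1 _ (rB_mem r)]
      ring)

/-- `σ - 1` on the quotient -/
def sm : QG (Md rB) p0 ⟶ Md rB := liG p0 sm' (fun (z : BR) hz => by
  change sR z - z = 0
  rw [sR_B1 z hz, sub_self])

lemma th1_apply (c : CC BR) : th1.hom c = (ev c - PowerSeries.map sR (eu c) : TT BR) := rfl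
lemma th2_apply (c : CC BR) : th2.hom c = (qG (Md rB) p0).hom (e0 (eu c) : BR) := rfl
lemma evm_apply (P : TT BR) : evm.hom P = (e0 P : BR) := rfl
lemma sm_apply (z : BR) : sm.hom ((qG (Md rB) p0).hom z) = (sR z - z : BR) := rfl

lemma q_eq (x y : BR) : (qG (Md rB) p0).hom x = (qG (Md rB) p0).hom y ↔ x - y ∈ B1R := by
  have h : (qG (Md rB) p0).hom x - (qG (Md rB) p0).hom y = (qG (Md rB) p0).hom (x - y : BR) :=
    (map_sub (qG (Md rB) p0).hom x y).symm
  rw [← sub_eq_zero, h]
  exact qG_zero (Md rB) p0 (x - y : BR)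

lemma im_pow (n : ℕ) (z : BR) : (f0 ^ n * z).im = PowerSeries.X ^ n * z.im := by
  induction n generalizing z with
  | zero => rw [pow_zero, one_mul, pow_zero, one_mul]
  | succ n ih => rw [pow_succ f0 n, mul_assoc, ih, f0_im, pow_succ PowerSeries.X n, mul_assoc]

/-- the element `g` -/
def gR : BR := ⟨0, 1⟩

/-- the element `a g` -/
def agR : BR := ⟨0, PowerSeries.C aa⟩

lemma key_eq : f0 ^ 2 * gR ^ 2 - (sR agR - agR) = f0 ^ 4 * gR := by
  have h1 : gR ^ 2 = ⟨PowerSeries.C aa, PowerSeries.X ^ 2⟩ := by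
    rw [pow_two]
    ext : 1
    · simp [gR]
    · simp [gR]
  have h2 : sR agR - agR = ⟨PowerSeries.C aa * PowerSeries.X ^ 2, 0⟩ := by
    ext : 1
    · change (sg _ _ agR - agR).re = _
      rw [QuadraticAlgebra.re_sub, sg_re]
      simp [agR]
    · change (sg _ _ agR - agR).im = _
      rw [QuadraticAlgebra.im_sub, sg_im]
      simp [agR]
  have h3 : ∀ (n : ℕ) (z : BR), (f0 ^ n * z).re = PowerSeries.X ^ n * z.re := by
    intro n
    induction n with
    | zero =>
      intro z
      rw [pow_zero, one_mul, pow_zero, one_mul]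
    | succ n ih =>
      intro z
      rw [pow_succ f0 n, mul_assoc, ih, f0_re, pow_succ PowerSeries.X n, mul_assoc]
  ext : 1
  · rw [QuadraticAlgebra.re_sub, h3, h3, h1, h2]
    simp [gR]
    ring
  · rw [QuadraticAlgebra.im_sub, im_pow, im_pow, h1, h2]
    simp [gR]
    ring

lemma c1 : Function.Injective (inM rC).hom := Subtype.val_injective

lemma c2 (c : Md rC) : (th1.hom c = 0 ∧ th2.hom c = 0) ↔ ∃ x, (inM rC).hom x = c := by
  let c' : CC BR := c
  constructor
  · rintro ⟨h1, h2⟩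
    have h3 : e0 (eu c') ∈ B1R := (qG_zero (Md rB) p0 _).1 h2
    have h1' : ev c' - PowerSeries.map sR (eu c') = 0 := h1
    exact ⟨⟨c', sub_eq_zero.1 h1', h3⟩, rfl⟩
  · rintro ⟨x, hx⟩
    have hx' : x.1 = c' := hx
    have h1 : ev c' - PowerSeries.map sR (eu c') = 0 := by
      rw [← hx']
      exact sub_eq_zero.2 x.2.1
    refine ⟨h1, (qG_zero (Md rB) p0 _).2 ?_⟩
    have h2 : e0 (eu c') ∈ B1R := by
      rw [← hx']
      exact x.2.2
    exact h2

lemma c3 (P : Md rT) (b : QG (Md rB) p0) :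
    evm.hom P + sm.hom b = 0 ↔ ∃ c, th1.hom c = P ∧ th2.hom c = b := by
  obtain ⟨z, rfl⟩ := qG_surj (Md rB) p0 b
  let z' : BR := z
  let P' : TT BR := P
  constructor
  · intro h
    have h1 : e0 P' + (sR z' - z') = 0 := h
    refine ⟨(iu (P' - PowerSeries.C (e0 P')) + ic z' : CC BR), ?_, ?_⟩
    · have : ev (iu (P' - PowerSeries.C (e0 P')) + ic z') -
          PowerSeries.map sR (eu (iu (P' - PowerSeries.C (e0 P')) + ic z')) = P' := by
        rw [map_add, map_add, ev_iu, eu_iu, ev_ic, eu_ic, map_sub, PowerSeries.constantCoeff_C,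
          sub_self, map_zero, zero_add, PowerSeries.map_C]
        have h2 : PowerSeries.C (e0 P') = PowerSeries.C (z' - sR z') := by
          congr 1
          linear_combination h1
        rw [h2, map_sub]
        ring
      exact this
    · have : e0 (eu (iu (P' - PowerSeries.C (e0 P')) + ic z')) = z' := by
        rw [map_add, eu_iu, eu_ic, map_sub, PowerSeries.constantCoeff_C,
          sub_self, map_zero, zero_add, PowerSeries.constantCoeff_C]
      exact congrArg (qG (Md rB) p0).hom this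
  · rintro ⟨c, h1, h2⟩
    let c' : CC BR := c
    have h1' : ev c' - PowerSeries.map sR (eu c') = P' := h1
    have h2' : e0 (eu c') - z' ∈ B1R := (q_eq _ _).1 h2
    have h3 := sR_B1 _ h2'
    rw [map_sub] at h3
    have : e0 P' + (sR z' - z') = 0 := by
      rw [← h1', map_sub, e0_ev, e0_map]
      linear_combination (-1 : BR) * h3
    exact this

lemma c4 : Function.Surjective evm.hom := fun (b : BR) =>
  ⟨(PowerSeries.C b : TT BR), PowerSeries.constantCoeff_C b⟩

section

variable (F : RR →+* RR) (hF : ∀ x, F x = x ^ 2)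

lemma d1 (φ : ModuleCat.of RR RR ⟶ (ModuleCat.restrictScalars F).obj (ModuleCat.of RR RR))
    (hφ : ∀ x : RR, φ.hom x = F x) :
    φ ≫ (ModuleCat.restrictScalars F).map (inM rC) = inM rC ≫ frM rC two_CCR F hF := by
  apply ModuleCat.hom_ext
  apply LinearMap.ext
  intro x
  have h : rC (F x) = (rC x) ^ 2 := by rw [hF, map_pow]
  exact (congrArg (inM rC).hom (hφ x)).trans h

lemma d2 : frM rC two_CCR F hF ≫ (ModuleCat.restrictScalars F).map th1 =
    th1 ≫ frM rT two_TTR F hF := by
  apply hom_ext'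
  intro c
  let c' : CC BR := c
  have : ev (c' ^ 2) - PowerSeries.map sR (eu (c' ^ 2)) =
      (ev c' - PowerSeries.map sR (eu c')) ^ 2 := by
    rw [map_pow, map_pow, map_pow]
    linear_combination
      (ev c' * PowerSeries.map sR (eu c') - (PowerSeries.map sR (eu c')) ^ 2) * two_TTR
  exact this

/-- Frobenius on the quotient -/
def phi0 : QG (Md rB) p0 ⟶ (ModuleCat.restrictScalars F).obj (QG (Md rB) p0) :=
  liG p0 (frM rB two_BR F hF ≫ (ModuleCat.restrictScalars F).map (qG (Md rB) p0))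
    (fun z hz => by
      let z' : BR := z
      have h : z' ^ 2 ∈ B1R := B1R.pow_mem hz 2
      exact (qG_zero (Md rB) p0 (z' ^ 2 : BR)).2 h)

lemma phi0_apply (z : BR) : (phi0 F hF).hom ((qG (Md rB) p0).hom z) =
    (qG (Md rB) p0).hom (z ^ 2 : BR) := rfl

lemma d3 : frM rC two_CCR F hF ≫ (ModuleCat.restrictScalars F).map th2 = th2 ≫ phi0 F hF := by
  apply hom_ext'
  intro c
  let c' : CC BR := c
  have h : e0 (eu (c' ^ 2)) = (e0 (eu c')) ^ 2 := by rw [map_pow, map_pow]
  exact congrArg (qG (Md rB) p0).hom h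

lemma d4 : frM rT two_TTR F hF ≫ (ModuleCat.restrictScalars F).map evm =
    evm ≫ frM rB two_BR F hF := by
  apply hom_ext'
  intro P
  let P' : TT BR := P
  have h : e0 (P' ^ 2) = (e0 P') ^ 2 := by rw [map_pow]
  exact h

lemma d5 : phi0 F hF ≫ (ModuleCat.restrictScalars F).map sm = sm ≫ frM rB two_BR F hF := by
  apply hom_ext'
  intro b
  obtain ⟨z, rfl⟩ := qG_surj (Md rB) p0 b
  let z' : BR := z
  have h : sR (z' ^ 2) - z' ^ 2 = (sR z' - z') ^ 2 := by
    rw [map_pow]
    linear_combination (sR z' * z' - z' ^ 2) * two_BR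
  exact h

lemma r1 : IsSMulRegular (Md rB) fR := by
  intro x y hxy
  let x' : BR := x
  let y' : BR := y
  have h : rB fR * x' = rB fR * y' := hxy
  rw [rB_fR] at h
  exact f0_cancel h

lemma r2 : IsSMulRegular (QG (Md rB) p0) fR := by
  intro b c hbc
  obtain ⟨x, rfl⟩ := qG_surj (Md rB) p0 b
  obtain ⟨y, rfl⟩ := qG_surj (Md rB) p0 c
  let x' : BR := x
  let y' : BR := y
  have h : (qG (Md rB) p0).hom (rB fR * x' : BR) = (qG (Md rB) p0).hom (rB fR * y' : BR) := hbc
  rw [q_eq, rB_fR, ← mul_sub, f0_B1] at h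
  exact (q_eq x' y').2 h

lemma g1 (r : RR) (hr : r ∈ JR) : ∃ b : Md rB, r • (show Md rB from gR) = fR • b := by
  obtain ⟨z, hz⟩ := JR_f0 r hr
  refine ⟨(z * gR : BR), ?_⟩
  have h : rB r * gR = rB fR * (z * gR) := by
    rw [rB_fR, hz]
    ring
  exact h

lemma g2 (n : ℕ) (c : QG (Md rB) p0) (z : Md rB) :
    fR ^ n • (show Md rB from gR) - sm.hom c ≠ fR ^ (n + 1) • z := by
  intro h
  obtain ⟨y, rfl⟩ := qG_surj (Md rB) p0 c
  let y' : BR := y
  let z' : BR := z
  have h1 : rB (fR ^ n) * gR - (sR y' - y') = rB (fR ^ (n + 1)) * z' := h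
  rw [map_pow, map_pow, rB_fR] at h1
  have h2 := congrArg QuadraticAlgebra.im h1
  rw [QuadraticAlgebra.im_sub, QuadraticAlgebra.im_sub, im_pow, im_pow] at h2
  have h3 : (sR y').im = y'.im := rfl
  rw [h3, sub_self, sub_zero, pow_succ PowerSeries.X n, mul_assoc] at h2
  have h4 := congrArg (PowerSeries.coeff n) h2
  have h5 : gR.im = 1 := rfl
  rw [h5, PowerSeries.coeff_X_pow_mul', PowerSeries.coeff_X_pow_mul', if_pos le_rfl,
    if_pos le_rfl, Nat.sub_self, PowerSeries.coeff_zero_X_mul,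
    PowerSeries.coeff_zero_eq_constantCoeff_apply, map_one] at h4
  exact one_ne_zero h4

include hF

lemma g3 (r : RR) (hr : r ∈ JR ^ 2) : ∃ m' : (ModuleCat.restrictScalars F).obj (QG (Md rB) p0),
    r • (show (ModuleCat.restrictScalars F).obj (QG (Md rB) p0) from
      (qG (Md rB) p0).hom (show Md rB from agR)) = (fR * fR) • m' := by
  obtain ⟨z, hz⟩ := JR2_f0 r hr
  refine ⟨(qG (Md rB) p0).hom (z ^ 2 * agR : BR), ?_⟩
  have h : rB (F r) * agR = rB (F (fR * fR)) * (z ^ 2 * agR) := by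
    rw [hF, hF, map_pow, map_pow, map_mul, rB_fR, hz]
    ring
  exact congrArg (qG (Md rB) p0).hom h

lemma g4 : ∃ z : (ModuleCat.restrictScalars F).obj (Md rB),
    fR • ((frM rB two_BR F hF).hom (show Md rB from gR)) -
      ((ModuleCat.restrictScalars F).map sm).hom (show
        (ModuleCat.restrictScalars F).obj (QG (Md rB) p0) from
        (qG (Md rB) p0).hom (show Md rB from agR)) = (fR * fR) • z := by
  refine ⟨(gR : BR), ?_⟩
  have h : rB (F fR) * gR ^ 2 - (sR agR - agR) = rB (F (fR * fR)) * gR := by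
    rw [hF, hF, map_pow, map_pow, map_mul, rB_fR, ← pow_two, ← pow_mul]
    exact key_eq
  exact h

end

theorem not_finj_RR (F : RR →+* RR) (hF : ∀ x, F x = x ^ 2)
    (φ : ModuleCat.of RR RR ⟶ (ModuleCat.restrictScalars F).obj (ModuleCat.of RR RR))
    (hφ : ∀ x : RR, φ.hom x = F x) :
    ¬ Function.Injective ((localCohomology JR 3).map φ).hom :=
  not_finj_crit JR (Md rC) (Md rT) (QG (Md rB) p0) (Md rB) (inM rC) th1 th2 evm sm
    c1 c2 c3 c4 F hF φ (frM rC two_CCR F hF) (frM rT two_TTR F hF) (phi0 F hF)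
    (frM rB two_BR F hF) (d1 F hF φ hφ) (d2 F hF) (d3 F hF) (d4 F hF) (d5 F hF)
    vC vT vB fR fR_mem r1 r2 (show Md rB from gR) g1 g2
    ((qG (Md rB) p0).hom (show Md rB from agR)) (g3 F hF) (g4 F hF)

end

end Pool.Agent.H215R3.LC
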