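import Pool.Agent.H215R3.LC.Pi
import Pool.Agent.H215R3.LC.RNot

/-!
# F-injectivity does not deform
-/

set_option autoImplicit false

namespace Pool.Agent.H215R3.LC

open CategoryTheory

noncomputable section

/-- the Frobenius map on the module `RR` -/
def phR (F : RR →+* RR) : ModuleCat.of RR RR ⟶
    (ModuleCat.restrictScalars F).obj (ModuleCat.of RR RR) :=
  mkG (M := ModuleCat.of RR RR) (N := (ModuleCat.restrictScalars F).obj (ModuleCat.of RR RR))
    (fun x : RR => (F x : RR)) (fun x y => map_add F x y) (fun r x => map_mul F r x)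

theorem main (h : ∀ (p : ℕ), p.Prime →
    ∀ (R S : Type) [CommRing R] [IsLocalRing R] [IsNoetherianRing R] [CharP R p]
      [CommRing S] [IsLocalRing S] [IsNoetherianRing S] [CharP S p]
      (f : R) (π : R →+* S),
      f ∈ IsLocalRing.maximalIdeal R → IsSMulRegular R f →
      Function.Surjective π → RingHom.ker π = Ideal.span {f} →
      (∀ (FS : S →+* S), (∀ x : S, FS x = x ^ p) →
        ∀ φ : ModuleCat.of S S ⟶ (ModuleCat.restrictScalars FS).obj (ModuleCat.of S S),
          (∀ x : S, φ.hom x = FS x) →
          ∀ i : ℕ, Function.Injective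
            ((localCohomology (IsLocalRing.maximalIdeal S) i).map φ).hom) →
      (∀ (FR : R →+* R), (∀ x : R, FR x = x ^ p) →
        ∀ φ : ModuleCat.of R R ⟶ (ModuleCat.restrictScalars FR).obj (ModuleCat.of R R),
          (∀ x : R, φ.hom x = FR x) →
          ∀ i : ℕ, Function.Injective
            ((localCohomology (IsLocalRing.maximalIdeal R) i).map φ).hom)) : False := by
  have hR : CharP RR 2 := charGR _ _ _
  have hS : CharP SS 2 := charGR _ _ _
  have h1 := h 2 Nat.prime_two RR SS fR piR fR_mem reg_fR surj_piR ker_piR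
    (fun F hF φ hφ i => finj_SS F hF φ hφ i) (frobenius RR 2) (fun x => rfl)
    (phR (frobenius RR 2)) (fun x => rfl) 3
  exact not_finj_RR (frobenius RR 2) (fun x => rfl) (phR (frobenius RR 2)) (fun x => rfl) h1

end

end Pool.Agent.H215R3.LC
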