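import Mathlib

/-!
# The functor `Ext` of Mathlib used for local cohomology, in terms of cocycles
-/

set_option autoImplicit false

namespace Pool.Agent.H215R3.LC

open CategoryTheory Limits Opposite

noncomputable section

variable {R : Type} [CommRing R]

abbrev MC (R : Type) [CommRing R] := ModuleCat.{0} R

/-- the functor which is derived -/
abbrev FF (Y : MC R) : MC R ⥤ (MC R)ᵒᵖ := ((linearYoneda R (MC R)).obj Y).rightOp

/-- the complex computing `Ext`, in the opposite category -/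
abbrev KC {X : MC R} (P : ProjectiveResolution X) (Y : MC R) : ChainComplex (MC R)ᵒᵖ ℕ :=
  ((FF Y).mapHomologicalComplex _).obj P.complex

lemma mono_hi {C : Type*} [Category C] [HasZeroMorphisms C] (K : ChainComplex C ℕ) (n : ℕ)
    [K.HasHomology n] : Mono (K.homologyι n) := inferInstance

/-- from the old Ext to opcycles, in the opposite category -/
def kapo {X : MC R} (P : ProjectiveResolution X) (Y : MC R) (n : ℕ) :
    ((FF Y).leftDerived n).obj X ⟶ (KC P Y).opcycles n :=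
  (P.isoLeftDerivedObj (FF Y) n).hom ≫ (KC P Y).homologyι n

instance {X : MC R} (P : ProjectiveResolution X) (Y : MC R) (n : ℕ) : Mono (kapo P Y n) := by
  unfold kapo
  exact @mono_comp _ _ _ _ _ _ _ _ (mono_hi _ _)

/-- from cocycles to the old Ext -/
def kap {X : MC R} (P : ProjectiveResolution X) (Y : MC R) (n : ℕ) :
    unop ((KC P Y).opcycles n) ⟶ ((Ext R (MC R) n).obj (op X)).obj Y :=
  (kapo P Y n).unop

/-- the inclusion of the cocycles -/
def qq {X : MC R} (P : ProjectiveResolution X) (Y : MC R) (n : ℕ) :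
    unop ((KC P Y).opcycles n) ⟶ ModuleCat.of R (P.complex.X n ⟶ Y) :=
  ((KC P Y).pOpcycles n).unop

instance {X : MC R} (P : ProjectiveResolution X) (Y : MC R) (n : ℕ) : Epi (kap P Y n) :=
  unop_epi_of_mono (kapo P Y n)

instance {X : MC R} (P : ProjectiveResolution X) (Y : MC R) (n : ℕ) : Mono (qq P Y n) :=
  unop_mono_of_epi ((KC P Y).pOpcycles n)

/-- the map of complexes induced by a map of the second variable -/
abbrev alp {X : MC R} (P : ProjectiveResolution X) {Y Y' : MC R} (g : Y ⟶ Y') : KC P Y' ⟶ KC P Y :=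
  (NatTrans.mapHomologicalComplex
        (NatTrans.rightOp ((linearYoneda R (MC R)).map g)) (ComplexShape.down ℕ)).app P.complex

lemma kapo_mapY {X : MC R} (P : ProjectiveResolution X) {Y Y' : MC R} (g : Y ⟶ Y') (n : ℕ) :
    (NatTrans.leftDerived (NatTrans.rightOp ((linearYoneda R (MC R)).map g)) n).app X ≫
      kapo P Y n = kapo P Y' n ≫ HomologicalComplex.opcyclesMap (alp P g) n := by
  rw [ProjectiveResolution.leftDerived_app_eq _ P n, kapo, kapo]
  simp only [Category.assoc]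
  erw [Iso.inv_hom_id_assoc]
  exact congrArg (fun z => (P.isoLeftDerivedObj (FF Y') n).hom ≫ z)
    (HomologicalComplex.homologyι_naturality (alp P g) n)

lemma kap_mapY {X : MC R} (P : ProjectiveResolution X) {Y Y' : MC R} (g : Y ⟶ Y') (n : ℕ) :
    kap P Y n ≫ ((Ext R (MC R) n).obj (op X)).map g =
      (HomologicalComplex.opcyclesMap (alp P g) n).unop ≫ kap P Y' n :=
  congrArg Quiver.Hom.unop (kapo_mapY P g n)

lemma kapo_mapX {X X' : MC R} (P : ProjectiveResolution X) (P' : ProjectiveResolution X')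
    (h : X' ⟶ X) (φ : P'.complex ⟶ P.complex)
    (w : φ ≫ P.π = P'.π ≫ (ChainComplex.single₀ (MC R)).map h) (Y : MC R) (n : ℕ) :
    ((FF Y).leftDerived n).map h ≫ kapo P Y n =
      kapo P' Y n ≫ HomologicalComplex.opcyclesMap (((FF Y).mapHomologicalComplex _).map φ) n := by
  rw [Functor.leftDerived_map_eq (FF Y) n h φ w, kapo, kapo]
  simp only [Category.assoc]
  erw [Iso.inv_hom_id_assoc]
  exact congrArg (fun z => (P'.isoLeftDerivedObj (FF Y) n).hom ≫ z)
    (HomologicalComplex.homologyι_naturality (((FF Y).mapHomologicalComplex _).map φ) n)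

lemma kap_mapX {X X' : MC R} (P : ProjectiveResolution X) (P' : ProjectiveResolution X')
    (h : X' ⟶ X) (φ : P'.complex ⟶ P.complex)
    (w : φ ≫ P.π = P'.π ≫ (ChainComplex.single₀ (MC R)).map h) (Y : MC R) (n : ℕ) :
    kap P Y n ≫ ((Ext R (MC R) n).map h.op).app Y =
      (HomologicalComplex.opcyclesMap (((FF Y).mapHomologicalComplex _).map φ) n).unop
        ≫ kap P' Y n :=
  congrArg Quiver.Hom.unop (kapo_mapX P P' h φ w Y n)

lemma qq_mapY {X : MC R} (P : ProjectiveResolution X) {Y Y' : MC R} (g : Y ⟶ Y') (n : ℕ) :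
    (HomologicalComplex.opcyclesMap (alp P g) n).unop ≫ qq P Y' n =
      qq P Y n ≫ ((alp P g).f n).unop :=
  congrArg Quiver.Hom.unop (HomologicalComplex.p_opcyclesMap (alp P g) n)

lemma qq_mapX {X X' : MC R} (P : ProjectiveResolution X) (P' : ProjectiveResolution X')
    (φ : P'.complex ⟶ P.complex) (Y : MC R) (n : ℕ) :
    (HomologicalComplex.opcyclesMap (((FF Y).mapHomologicalComplex _).map φ) n).unop ≫ qq P' Y n =
      qq P Y n ≫ ((((FF Y).mapHomologicalComplex _).map φ).f n).unop :=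
  congrArg Quiver.Hom.unop
    (HomologicalComplex.p_opcyclesMap (((FF Y).mapHomologicalComplex _).map φ) n)

/-- a cocycle represents an element of the old Ext -/
def Rep {X : MC R} (P : ProjectiveResolution X) (Y : MC R) (n : ℕ) (f : P.complex.X n ⟶ Y)
    (ξ : ((Ext R (MC R) n).obj (op X)).obj Y) : Prop :=
  ∃ c : (unop ((KC P Y).opcycles n) : MC R), (qq P Y n).hom c = f ∧ (kap P Y n).hom c = ξ

lemma Rep.mapY {X : MC R} {P : ProjectiveResolution X} {Y Y' : MC R} {n : ℕ}
    {f : P.complex.X n ⟶ Y} {ξ : ((Ext R (MC R) n).obj (op X)).obj Y} (h : Rep P Y n f ξ)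
    (g : Y ⟶ Y') : Rep P Y' n (f ≫ g) ((((Ext R (MC R) n).obj (op X)).map g).hom ξ) := by
  obtain ⟨c, hc, hξ⟩ := h
  refine ⟨(HomologicalComplex.opcyclesMap (alp P g) n).unop.hom c, ?_, ?_⟩
  · have := congrArg (fun ψ => ψ.hom c) (qq_mapY P g n)
    refine this.trans ?_
    change ((alp P g).f n).unop.hom ((qq P Y n).hom c) = _
    rw [hc]
    rfl
  · have := congrArg (fun ψ => ψ.hom c) (kap_mapY P g n)
    refine this.symm.trans ?_
    change (((Ext R (MC R) n).obj (op X)).map g).hom ((kap P Y n).hom c) = _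
    rw [hξ]

lemma Rep.mapX {X X' : MC R} {P : ProjectiveResolution X} {P' : ProjectiveResolution X'}
    {h : X' ⟶ X} {φ : P'.complex ⟶ P.complex}
    (w : φ ≫ P.π = P'.π ≫ (ChainComplex.single₀ (MC R)).map h) {Y : MC R} {n : ℕ}
    {f : P.complex.X n ⟶ Y} {ξ : ((Ext R (MC R) n).obj (op X)).obj Y} (hr : Rep P Y n f ξ) :
    Rep P' Y n (φ.f n ≫ f) ((((Ext R (MC R) n).map h.op).app Y).hom ξ) := by
  obtain ⟨c, hc, hξ⟩ := hr
  refine ⟨(HomologicalComplex.opcyclesMap (((FF Y).mapHomologicalComplex _).map φ) n).unop.hom c,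
    ?_, ?_⟩
  · have := congrArg (fun ψ => ψ.hom c) (qq_mapX P P' φ Y n)
    refine this.trans ?_
    change ((((FF Y).mapHomologicalComplex _).map φ).f n).unop.hom ((qq P Y n).hom c) = _
    rw [hc]
    rfl
  · have := congrArg (fun ψ => ψ.hom c) (kap_mapX P P' h φ w Y n)
    refine this.symm.trans ?_
    change (((Ext R (MC R) n).map h.op).app Y).hom ((kap P Y n).hom c) = _
    rw [hξ]

lemma exists_Rep {X : MC R} (P : ProjectiveResolution X) (Y : MC R) (n : ℕ)
    (ξ : ((Ext R (MC R) n).obj (op X)).obj Y) : ∃ f : P.complex.X n ⟶ Y, Rep P Y n f ξ := by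
  obtain ⟨c, hc⟩ := (ModuleCat.epi_iff_surjective (kap P Y n)).1 inferInstance ξ
  exact ⟨(qq P Y n).hom c, c, rfl, hc⟩

lemma qq_inj {X : MC R} (P : ProjectiveResolution X) (Y : MC R) (n : ℕ) :
    Function.Injective (qq P Y n).hom :=
  (ModuleCat.mono_iff_injective (qq P Y n)).1 inferInstance

lemma qq_from {X : MC R} (P : ProjectiveResolution X) (Y : MC R) (n j : ℕ)
    (x : P.complex.X j ⟶ Y) :
    (qq P Y n).hom (((KC P Y).fromOpcycles n j).unop.hom x) = P.complex.d n j ≫ x := by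
  have h := HomologicalComplex.p_fromOpcycles (KC P Y) n j
  exact congrArg (fun ψ => ψ.unop.hom x) h

lemma kap_zero_iff {X : MC R} (P : ProjectiveResolution X) (Y : MC R) (n j : ℕ)
    (hj : (ComplexShape.down ℕ).next n = j)
    (c : (unop ((KC P Y).opcycles n) : MC R)) :
    (kap P Y n).hom c = 0 ↔ ∃ x : P.complex.X j ⟶ Y, ((KC P Y).fromOpcycles n j).unop.hom x = c := by
  let S : ShortComplex (MC R)ᵒᵖ := ShortComplex.mk ((KC P Y).homologyι n)
    ((KC P Y).fromOpcycles n j) (HomologicalComplex.homologyι_comp_fromOpcycles (KC P Y) n j)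
  have hS : S.Exact := ShortComplex.exact_of_f_is_kernel S
    (HomologicalComplex.homologyIsKernel (KC P Y) n j hj)
  have hS' : S.unop.Exact := hS.unop
  have e1 : (kap P Y n).hom c = (P.isoLeftDerivedObj (FF Y) n).hom.unop.hom
      (((KC P Y).homologyι n).unop.hom c) := rfl
  have hinj : Function.Injective (P.isoLeftDerivedObj (FF Y) n).hom.unop.hom := by
    have : Mono (P.isoLeftDerivedObj (FF Y) n).hom.unop := inferInstance
    exact (ModuleCat.mono_iff_injective _).1 this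
  constructor
  · intro h
    have h0 : ((KC P Y).homologyι n).unop.hom c = 0 := by
      apply hinj
      exact e1.symm.trans (h.trans (map_zero ((P.isoLeftDerivedObj (FF Y) n).hom.unop.hom)).symm)
    obtain ⟨x, hx⟩ := (ShortComplex.moduleCat_exact_iff S.unop).1 hS' c h0
    exact ⟨x, hx⟩
  · rintro ⟨x, rfl⟩
    rw [e1]
    have h2 : ((KC P Y).homologyι n).unop.hom (((KC P Y).fromOpcycles n j).unop.hom x) = 0 := by
      have := HomologicalComplex.homologyι_comp_fromOpcycles (KC P Y) n j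
      exact congrArg (fun ψ => ψ.unop.hom x) this
    exact (congrArg (P.isoLeftDerivedObj (FF Y) n).hom.unop.hom h2).trans
      (map_zero ((P.isoLeftDerivedObj (FF Y) n).hom.unop.hom))

lemma Rep.zero_iff {X : MC R} {P : ProjectiveResolution X} {Y : MC R} {n : ℕ}
    {f : P.complex.X n ⟶ Y} {ξ : ((Ext R (MC R) n).obj (op X)).obj Y} (h : Rep P Y n f ξ) (j : ℕ)
    (hj : (ComplexShape.down ℕ).next n = j) :
    ξ = 0 ↔ ∃ x : P.complex.X j ⟶ Y, P.complex.d n j ≫ x = f := by
  obtain ⟨c, hc, hξ⟩ := h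
  rw [← hξ, kap_zero_iff P Y n j hj]
  constructor
  · rintro ⟨x, rfl⟩
    exact ⟨x, by rw [← hc, qq_from]⟩
  · rintro ⟨x, hx⟩
    exact ⟨x, qq_inj P Y n (by rw [qq_from, hc, hx])⟩

lemma Rep.cocycle {X : MC R} {P : ProjectiveResolution X} {Y : MC R} {n : ℕ}
    {f : P.complex.X n ⟶ Y} {ξ : ((Ext R (MC R) n).obj (op X)).obj Y} (h : Rep P Y n f ξ) :
    P.complex.d (n + 1) n ≫ f = 0 := by
  obtain ⟨c, rfl, hξ⟩ := h
  have := HomologicalComplex.d_pOpcycles (KC P Y) (n + 1) n
  exact congrArg (fun ψ => ψ.unop.hom c) this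

lemma exists_Rep' {X : MC R} (P : ProjectiveResolution X) (Y : MC R) (n : ℕ)
    (f : P.complex.X n ⟶ Y) (hf : P.complex.d (n + 1) n ≫ f = 0) :
    ∃ ξ, Rep P Y n f ξ := by
  let S : ShortComplex (MC R)ᵒᵖ := ShortComplex.mk ((KC P Y).d (n + 1) n)
    ((KC P Y).pOpcycles n) (HomologicalComplex.d_pOpcycles (KC P Y) (n + 1) n)
  have hS : S.Exact := ShortComplex.exact_of_g_is_cokernel S
    (HomologicalComplex.opcyclesIsCokernel (KC P Y) (n + 1) n (ChainComplex.prev ℕ n))
  have hS' : S.unop.Exact := hS.unop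
  obtain ⟨x, hx⟩ := (ShortComplex.moduleCat_exact_iff S.unop).1 hS' f hf
  exact ⟨_, x, hx, rfl⟩

lemma extMk0 {X Y : MC R} (P : ProjectiveResolution X) (f : P.complex.X 0 ⟶ Y)
    (hf : P.complex.d 1 0 ≫ f = 0) (h : P.extMk f 1 rfl hf = 0) : f = 0 := by
  have h' := congrArg P.extEquivCohomologyClass h
  rw [ProjectiveResolution.extEquivCohomologyClass_extMk,
    ProjectiveResolution.extEquivCohomologyClass_zero,
    CochainComplex.HomComplex.CohomologyClass.mk_eq_zero_iff,
    CochainComplex.HomComplex.Cocycle.toSingleMk_mem_coboundaries_iff _ _ _ _ _ 1 (by simp)] at h'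
  obtain ⟨g, hg⟩ := h'
  have hz : IsZero (P.cochainComplex.X 1) := P.cochainComplex.isZero_of_isStrictlyLE 0 1
  rw [hz.eq_of_src g 0, comp_zero] at hg
  rw [← cancel_epi (P.cochainComplexXIso (-(0 : ℕ)) 0 rfl).hom, comp_zero]
  exact hg.symm

/-- the old class and the new class have a common cocycle -/
def Lk {X Y : MC R} {n : ℕ} (ξ : ((Ext R (MC R) n).obj (op X)).obj Y)
    (α : Abelian.Ext.{0} X Y n) : Prop :=
  ∃ (f : (ProjectiveResolution.of X).complex.X n ⟶ Y)
    (hf : (ProjectiveResolution.of X).complex.d (n + 1) n ≫ f = 0),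
    Rep (ProjectiveResolution.of X) Y n f ξ ∧
      (ProjectiveResolution.of X).extMk f (n + 1) rfl hf = α

lemma exists_Lk {X Y : MC R} {n : ℕ} (ξ : ((Ext R (MC R) n).obj (op X)).obj Y) :
    ∃ α : Abelian.Ext.{0} X Y n, Lk ξ α := by
  obtain ⟨f, hf⟩ := exists_Rep (ProjectiveResolution.of X) Y n ξ
  exact ⟨_, f, hf.cocycle, hf, rfl⟩

lemma exists_Lk' {X Y : MC R} {n : ℕ} (α : Abelian.Ext.{0} X Y n) :
    ∃ ξ : ((Ext R (MC R) n).obj (op X)).obj Y, Lk ξ α := by
  obtain ⟨f, hf, h⟩ := (ProjectiveResolution.of X).extMk_surjective α (n + 1) rfl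
  obtain ⟨ξ, hξ⟩ := exists_Rep' (ProjectiveResolution.of X) Y n f hf
  exact ⟨ξ, f, hf, hξ, h⟩

lemma Lk.mapY {X Y Y' : MC R} {n : ℕ} {ξ : ((Ext R (MC R) n).obj (op X)).obj Y}
    {α : Abelian.Ext.{0} X Y n} (h : Lk ξ α) (g : Y ⟶ Y') :
    Lk ((((Ext R (MC R) n).obj (op X)).map g).hom ξ)
      (α.comp (Abelian.Ext.mk₀ g) (add_zero n)) := by
  obtain ⟨f, hf, hr, rfl⟩ := h
  refine ⟨f ≫ g, by rw [← Category.assoc, hf, zero_comp], hr.mapY g, ?_⟩
  rw [ProjectiveResolution.extMk_comp_mk₀]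

lemma Lk.mapX {X X' Y : MC R} {n : ℕ} {ξ : ((Ext R (MC R) n).obj (op X)).obj Y}
    {α : Abelian.Ext.{0} X Y n} (h : Lk ξ α) (g : X' ⟶ X) :
    Lk ((((Ext R (MC R) n).map g.op).app Y).hom ξ)
      ((Abelian.Ext.mk₀ g).comp α (zero_add n)) := by
  obtain ⟨f, hf, hr, rfl⟩ := h
  let φ := ProjectiveResolution.lift g (ProjectiveResolution.of X') (ProjectiveResolution.of X)
  have w : φ ≫ (ProjectiveResolution.of X).π =
      (ProjectiveResolution.of X').π ≫ (ChainComplex.single₀ (MC R)).map g :=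
    ProjectiveResolution.lift_commutes g _ _
  let φ' : (ProjectiveResolution.of X').Hom (ProjectiveResolution.of X) g :=
    ⟨φ, by
      have := congrArg (fun z => z.f 0) w
      exact this⟩
  refine ⟨φ.f n ≫ f, ?_, hr.mapX w, ?_⟩
  · rw [← Category.assoc, ← φ.comm (n + 1) n, Category.assoc, hf, comp_zero]
  · rw [ProjectiveResolution.mk₀_comp_extMk f (n + 1) rfl hf φ']

lemma Lk.zero_iff {X Y : MC R} {n : ℕ} {ξ : ((Ext R (MC R) n).obj (op X)).obj Y}
    {α : Abelian.Ext.{0} X Y n} (h : Lk ξ α) : ξ = 0 ↔ α = 0 := by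
  obtain ⟨f, hf, hr, rfl⟩ := h
  rcases n with _ | n
  · rw [hr.zero_iff 0 ChainComplex.next_nat_zero]
    have hs : (ProjectiveResolution.of X).complex.d 0 0 = 0 :=
      HomologicalComplex.shape _ _ _ (by simp)
    constructor
    · rintro ⟨x, hx⟩
      rw [hs, zero_comp] at hx
      subst hx
      exact ProjectiveResolution.extMk_zero _ _ _
    · intro h
      exact ⟨0, by rw [comp_zero, extMk0 _ f hf h]⟩
  · rw [hr.zero_iff n (ChainComplex.next_nat_succ n),
      ProjectiveResolution.extMk_eq_zero_iff _ f (n + 2) rfl hf n rfl]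

end

end Pool.Agent.H215R3.LC
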