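import Mathlib

/-!
# Splitting of Frobenius on power series rings in characteristic two
-/

set_option autoImplicit false

namespace Pool.Agent.H215R3.LC

noncomputable section

variable {A : Type} [CommRing A] [CharP A 2] (L : A →+ A)

/-- the splitting on `A[[X]]` -/
def LV : PowerSeries A →+ PowerSeries A where
  toFun g := PowerSeries.mk fun j => L (PowerSeries.coeff (2 * j) g)
  map_zero' := by
    ext j
    rw [PowerSeries.coeff_mk, map_zero, map_zero, map_zero]
  map_add' := by
    intro a b
    ext j
    rw [PowerSeries.coeff_mk, map_add, map_add, map_add, PowerSeries.coeff_mk,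
      PowerSeries.coeff_mk]

omit [CharP A 2] in
lemma coeff_LV (g : PowerSeries A) (j : ℕ) :
    PowerSeries.coeff j (LV L g) = L (PowerSeries.coeff (2 * j) g) := by
  exact PowerSeries.coeff_mk j (fun j => L (PowerSeries.coeff (2 * j) g))

lemma coeff_sq (a : PowerSeries A) (n : ℕ) :
    PowerSeries.coeff n (a ^ 2) = if 2 ∣ n then (PowerSeries.coeff (n / 2) a) ^ 2 else 0 := by
  have h : PowerSeries.map (frobenius A 2) (PowerSeries.expand 2 two_ne_zero a) = a ^ 2 :=
    MvPowerSeries.map_frobenius_expand 2 two_ne_zero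
  rw [← h, PowerSeries.coeff_map, PowerSeries.coeff_expand]
  split_ifs
  · rfl
  · exact map_zero _

lemma LV_sq_mul (hL : ∀ c d, L (c ^ 2 * d) = c * L d) (a b : PowerSeries A) :
    LV L (a ^ 2 * b) = a * LV L b := by
  classical
  ext j
  rw [coeff_LV, PowerSeries.coeff_mul, PowerSeries.coeff_mul, map_sum]
  symm
  apply Finset.sum_of_injOn (fun x => (2 * x.1, 2 * x.2))
  · intro x _ y _ hxy
    simp only [Prod.mk.injEq] at hxy
    exact Prod.ext (by omega) (by omega)
  · intro x hx
    simp only [Finset.mem_coe, Finset.HasAntidiagonal.mem_antidiagonal] at hx ⊢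
    omega
  · intro x hx hx'
    rw [coeff_sq]
    split_ifs with h
    · exfalso
      apply hx'
      rw [Finset.HasAntidiagonal.mem_antidiagonal] at hx
      obtain ⟨k, hk⟩ := h
      refine ⟨(k, x.2 / 2), ?_, ?_⟩
      · simp only [Finset.mem_coe, Finset.HasAntidiagonal.mem_antidiagonal]
        omega
      · apply Prod.ext
        · simp only
          omega
        · simp only
          omega
    · rw [zero_mul, map_zero]
  · intro x hx
    simp only
    rw [coeff_sq, if_pos ⟨x.1, rfl⟩, Nat.mul_div_cancel_left _ (by norm_num), hL,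
      coeff_LV]

omit [CharP A 2] in
lemma LV_one (hL : L 1 = 1) : LV L 1 = 1 := by
  ext j
  rw [coeff_LV, PowerSeries.coeff_one, PowerSeries.coeff_one]
  by_cases h : j = 0
  · rw [if_pos h, if_pos (by omega), hL]
  · rw [if_neg h, if_neg (by omega), map_zero]

omit [CharP A 2] in
lemma constantCoeff_LV (g : PowerSeries A) :
    PowerSeries.constantCoeff (LV L g) = L (PowerSeries.constantCoeff g) := by
  rw [← PowerSeries.coeff_zero_eq_constantCoeff_apply, coeff_LV, mul_zero,
    PowerSeries.coeff_zero_eq_constantCoeff_apply]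

instance : CharP (PowerSeries A) 2 := by
  have : Function.Injective (PowerSeries.C (R := A)) := PowerSeries.C_injective
  exact charP_of_injective_ringHom this 2

/-- the splitting on `A[[v]][[u]]` -/
def LW : PowerSeries (PowerSeries A) →+ PowerSeries (PowerSeries A) := LV (LV L)

lemma LW_sq_mul (hL : ∀ c d, L (c ^ 2 * d) = c * L d) (a b : PowerSeries (PowerSeries A)) :
    LW L (a ^ 2 * b) = a * LW L b :=
  LV_sq_mul (LV L) (LV_sq_mul L hL) a b

omit [CharP A 2] in
lemma LW_one (hL : L 1 = 1) : LW L 1 = 1 := LV_one _ (LV_one _ hL)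

omit [CharP A 2] in
lemma eu_LW (g : PowerSeries (PowerSeries A)) :
    PowerSeries.constantCoeff (LW L g) = LV L (PowerSeries.constantCoeff g) :=
  constantCoeff_LV _ _

omit [CharP A 2] in
lemma ev_LW (g : PowerSeries (PowerSeries A)) :
    PowerSeries.map PowerSeries.constantCoeff (LW L g) =
      LV L (PowerSeries.map PowerSeries.constantCoeff g) := by
  ext j
  rw [PowerSeries.coeff_map, LW, coeff_LV, constantCoeff_LV, coeff_LV, PowerSeries.coeff_map]

end

end Pool.Agent.H215R3.LC
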