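import Pool.Agent.H215R3.LC.PartS

/-!
# A criterion for the failure of F-injectivity
-/

set_option autoImplicit false

namespace Pool.Agent.H215R3.LC

open CategoryTheory Limits Opposite Abelian

noncomputable section

variable {R : Type} [CommRing R]

/-- product -/
def PG (M N : MC R) : MC R := ModuleCat.of R (M × N)

/-- first projection -/
def fsG (M N : MC R) : PG M N ⟶ M := ModuleCat.ofHom (LinearMap.fst R M N)

/-- second projection -/
def snG (M N : MC R) : PG M N ⟶ N := ModuleCat.ofHom (LinearMap.snd R M N)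

/-- second inclusion -/
def irG (M N : MC R) : N ⟶ PG M N := ModuleCat.ofHom (LinearMap.inr R M N)

/-- kernel -/
def KG {M N : MC R} (p : M ⟶ N) : MC R := ModuleCat.of R (LinearMap.ker p.hom)

/-- inclusion of the kernel -/
def kiG {M N : MC R} (p : M ⟶ N) : KG p ⟶ M := ModuleCat.ofHom (Submodule.subtype _)

/-- lift to the kernel -/
def klG {M N X : MC R} (p : M ⟶ N) (g : X ⟶ M) (h : ∀ x, p.hom (g.hom x) = 0) : X ⟶ KG p :=
  ModuleCat.ofHom (g.hom.codRestrict _ h)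

lemma klG_kiG {M N X : MC R} (p : M ⟶ N) (g : X ⟶ M) (h : ∀ x, p.hom (g.hom x) = 0) :
    klG p g h ≫ kiG p = g := rfl

lemma kiG_inj {M N : MC R} (p : M ⟶ N) : Function.Injective (kiG p).hom := Subtype.val_injective

lemma kiG_zero {M N : MC R} (p : M ⟶ N) (x : KG p) : p.hom ((kiG p).hom x) = 0 := x.2

lemma SE_ker {M N : MC R} (p : M ⟶ N) (hp : Function.Surjective p.hom) : SE (kiG p) p :=
  ⟨kiG_inj p, hp, fun y => ⟨fun h => ⟨⟨y, h⟩, rfl⟩, by
    rintro ⟨x, rfl⟩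
    exact kiG_zero p x⟩⟩

lemma hom_ext' {M N : MC R} {f g : M ⟶ N} (h : ∀ x : M, f.hom x = g.hom x) : f = g := by
  apply ModuleCat.hom_ext
  exact LinearMap.ext h

lemma reg_F {M : MC R} (F : R →+* R) (hF : ∀ x, F x = x ^ 2) (f : R) (hf : IsSMulRegular M f) :
    IsSMulRegular ((ModuleCat.restrictScalars F).obj M) f := by
  intro x y hxy
  have h1 : (f ^ 2) • (show M from x) = (f ^ 2) • (show M from y) := by
    rw [← hF]
    exact hxy
  exact (hf.pow 2) h1

theorem not_finj_crit (J : Ideal R) (C T M0 B : MC R) (i : ModuleCat.of R R ⟶ C)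
    (θ1 : C ⟶ T) (θ2 : C ⟶ M0) (ev : T ⟶ B) (s : M0 ⟶ B)
    (hi : Function.Injective i.hom)
    (hi2 : ∀ c, (θ1.hom c = 0 ∧ θ2.hom c = 0) ↔ ∃ x, i.hom x = c)
    (hθ : ∀ (P : T) (b : M0), ev.hom P + s.hom b = 0 ↔ ∃ c, θ1.hom c = P ∧ θ2.hom c = b)
    (hev : Function.Surjective ev.hom)
    (F : R →+* R) (hF : ∀ x, F x = x ^ 2)
    (φ : ModuleCat.of R R ⟶ (ModuleCat.restrictScalars F).obj (ModuleCat.of R R))
    (φC : C ⟶ (ModuleCat.restrictScalars F).obj C)
    (φT : T ⟶ (ModuleCat.restrictScalars F).obj T)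
    (φ0 : M0 ⟶ (ModuleCat.restrictScalars F).obj M0)
    (φB : B ⟶ (ModuleCat.restrictScalars F).obj B)
    (n1 : φ ≫ (ModuleCat.restrictScalars F).map i = i ≫ φC)
    (n2 : φC ≫ (ModuleCat.restrictScalars F).map θ1 = θ1 ≫ φT)
    (n3 : φC ≫ (ModuleCat.restrictScalars F).map θ2 = θ2 ≫ φ0)
    (n4 : φT ≫ (ModuleCat.restrictScalars F).map ev = ev ≫ φB)
    (n5 : φ0 ≫ (ModuleCat.restrictScalars F).map s = s ≫ φB)
    (vC : ∀ t, Vn (J ^ t) C 3) (vT : ∀ t, Vn (J ^ t) T 2) (vB : ∀ t, Vn (J ^ t) B 1)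
    (f : R) (hf : f ∈ J) (rB : IsSMulRegular B f) (r0 : IsSMulRegular M0 f)
    (g : B) (hg : ∀ a ∈ J, ∃ b : B, a • g = f • b)
    (non : ∀ (n : ℕ) (c : M0) (z : B), f ^ n • g - s.hom c ≠ f ^ (n + 1) • z)
    (a : (ModuleCat.restrictScalars F).obj M0)
    (ha : ∀ r ∈ J ^ 2, ∃ m' : (ModuleCat.restrictScalars F).obj M0, r • a = (f * f) • m')
    (hz : ∃ z : (ModuleCat.restrictScalars F).obj B,
      f • (φB.hom g) - ((ModuleCat.restrictScalars F).map s).hom a = (f * f) • z) :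
    ¬ Function.Injective ((localCohomology J 3).map φ).hom := by
  let FF := ModuleCat.restrictScalars.{0} F
  let E : MC R := PG T M0
  let p : E ⟶ B := fsG T M0 ≫ ev + snG T M0 ≫ s
  have hp : ∀ (P : T) (b : M0), p.hom ((P, b) : T × M0) = ev.hom P + s.hom b := fun P b => rfl
  have hpsurj : Function.Surjective p.hom := by
    intro b
    obtain ⟨P, hP⟩ := hev b
    refine ⟨((P, 0) : T × M0), ?_⟩
    rw [hp, hP, map_zero, add_zero]
  let θ : C ⟶ E := mkG (fun c => ((θ1.hom c, θ2.hom c) : T × M0))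
    (fun x y => Prod.ext (map_add θ1.hom x y) (map_add θ2.hom x y))
    (fun r x => Prod.ext (map_smul θ1.hom r x) (map_smul θ2.hom r x))
  have hθp : ∀ c, p.hom (θ.hom c) = 0 := fun c => (hθ _ _).2 ⟨c, rfl, rfl⟩
  let q : C ⟶ KG p := klG p θ hθp
  have S2 : SE (kiG p) p := SE_ker p hpsurj
  have S1 : SE i q := by
    refine ⟨hi, ?_, ?_⟩
    · intro y
      have h1 := kiG_zero p y
      obtain ⟨c, hc1, hc2⟩ := (hθ ((kiG p).hom y : T × M0).1 ((kiG p).hom y : T × M0).2).1 h1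
      refine ⟨c, kiG_inj p ?_⟩
      exact Prod.ext hc1 hc2
    · intro c
      rw [← hi2]
      constructor
      · intro h
        have h1 : θ.hom c = 0 := congrArg (kiG p).hom h
        exact ⟨congrArg (fun z : T × M0 => z.1) h1, congrArg (fun z : T × M0 => z.2) h1⟩
      · rintro ⟨h1, h2⟩
        apply kiG_inj p
        exact (Prod.ext h1 h2 : ((θ1.hom c, θ2.hom c) : T × M0) = 0)
  have S1F := S1.map F
  have S2F := S2.map F
  let φE : E ⟶ FF.obj E := mkG (fun x : T × M0 => ((φT.hom x.1, φ0.hom x.2) : T × M0))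
    (fun x y => Prod.ext (map_add φT.hom x.1 y.1) (map_add φ0.hom x.2 y.2))
    (fun r x => Prod.ext (map_smul φT.hom r x.1) (map_smul φ0.hom r x.2))
  have m4 : φE ≫ FF.map p = p ≫ φB := by
    apply hom_ext'
    intro x
    have h4 := congrArg (fun ψ => ψ.hom (x : T × M0).1) n4
    have h5 := congrArg (fun ψ => ψ.hom (x : T × M0).2) n5
    refine Eq.trans ?_ (map_add φB.hom _ _).symm
    exact congrArg₂ (fun (u v : B) => u + v) h4 h5
  let φD : KG p ⟶ FF.obj (KG p) := mkG (fun x => (⟨φE.hom ((kiG p).hom x), by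
      have h4 := congrArg (fun ψ => ψ.hom ((kiG p).hom x)) m4
      have h5 : φB.hom (p.hom ((kiG p).hom x)) = 0 := by rw [kiG_zero, map_zero]
      exact h4.trans h5⟩ : LinearMap.ker p.hom))
    (fun x y => Subtype.ext (by
      exact (congrArg φE.hom (map_add (kiG p).hom x y)).trans (map_add φE.hom _ _)))
    (fun r x => Subtype.ext (by
      exact (congrArg φE.hom (map_smul (kiG p).hom r x)).trans (map_smul φE.hom _ _)))
  have m3 : φD ≫ FF.map (kiG p) = kiG p ≫ φE := rfl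
  have m2 : φC ≫ FF.map q = q ≫ φD := by
    apply hom_ext'
    intro x
    apply kiG_inj p
    exact Prod.ext (congrArg (fun ψ => ψ.hom x) n2) (congrArg (fun ψ => ψ.hom x) n3)
  have nat1 := cl_nat S1 S1F φ φC φD n1 m2
  have nat2 := cl_nat S2 S2F φD φE φB m3 m4
  have hg' : ∀ a ∈ J ^ 1, ∃ b : B, a • g = f • b := by
    intro a ha
    rw [pow_one] at ha
    exact hg a ha
  let δ : Ext.{0} (QJ J 1) B 1 := del f rB (J ^ 1) g hg'
  have pbδ : ∀ (t : ℕ) (h : 1 ≤ t), (Ext.mk₀ (prJ J h)).comp δ (zero_add 1) =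
      del f rB (J ^ t) g (fun a ha => hg' a (Ideal.pow_le_pow_right h ha)) := fun t h =>
    del_pb f rB (J ^ 1) (J ^ t) (Ideal.pow_le_pow_right h) g hg' (prJ J h) rfl
  refine not_injective_of J 3 φ 1 ((δ.comp (cl S2) rfl).comp (cl S1) rfl) ⟨2, one_le_two, ?_⟩ ?_
  · rw [pb, ← aspm, as1, nat1, as0, as1, nat2, as0, asp, asp]
    have key : (Ext.mk₀ (prJ J one_le_two)).comp (δ.comp (Ext.mk₀ φB) (add_zero 1)) (zero_add 1) =
        (del (f * f) ((reg_F F hF f r0).mul (reg_F F hF f r0)) (J ^ 2) a ha).comp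
          (Ext.mk₀ (FF.map s)) (add_zero 1) := by
      rw [aspm, pbδ 2 one_le_two]
      have c1 : ∀ a ∈ J ^ 2, ∃ m'' : FF.obj B, a • φB.hom g = f • m'' := by
        intro a ha
        obtain ⟨b, hb⟩ := hg' a (Ideal.pow_le_pow_right one_le_two ha)
        refine ⟨φB.hom b, ?_⟩
        rw [← map_smul, hb, map_smul]
      have c2 : ∀ a ∈ J ^ 2, ∃ m'' : FF.obj B, a • (f • φB.hom g) = (f * f) • m'' := by
        intro a ha
        obtain ⟨m, hm⟩ := c1 a ha
        exact ⟨m, by rw [smul_comm, hm, mul_smul]⟩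
      have c3 : ∀ r ∈ J ^ 2, ∃ m'' : FF.obj B, r • (FF.map s).hom a = (f * f) • m'' := by
        intro r hr
        obtain ⟨m, hm⟩ := ha r hr
        refine ⟨(FF.map s).hom m, ?_⟩
        rw [← map_smul, hm, map_smul]
      rw [del_map f rB (reg_F F hF f rB) (J ^ 2) φB g _ c1,
        del_up f f (reg_F F hF f rB) ((reg_F F hF f rB).mul (reg_F F hF f rB)) (J ^ 2) _ c1 c2,
        del_map (f * f) ((reg_F F hF f r0).mul (reg_F F hF f r0))
          ((reg_F F hF f rB).mul (reg_F F hF f rB)) (J ^ 2) (FF.map s) a ha c3]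
      exact del_congr _ _ _ _ _ _ _ hz
    have e : FF.map s = FF.map (irG T M0) ≫ FF.map p := by
      apply hom_ext'
      intro x
      have h1 : p.hom ((irG T M0).hom x) = s.hom x := by
        change ev.hom 0 + s.hom x = s.hom x
        rw [map_zero, zero_add]
      exact h1.symm
    rw [key, e, ← as2, ← as0, g_cl, Ext.comp_zero, Ext.zero_comp]
  · intro t ht h0
    rw [pb, asp, asp, pbδ t ht] at h0
    obtain ⟨y, hy⟩ := cl_ex3 S1 _ h0
    rw [vC t 2 (by norm_num) y, Ext.zero_comp] at hy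
    obtain ⟨y, hy⟩ := cl_ex3 S2 _ hy.symm
    have e1 : y.comp (Ext.mk₀ p) (add_zero 1) =
        (y.comp (Ext.mk₀ (snG T M0)) (add_zero 1)).comp (Ext.mk₀ s) (add_zero 1) := by
      have e2 : (Ext.mk₀ p : Ext.{0} E B 0) = Ext.mk₀ (fsG T M0 ≫ ev) + Ext.mk₀ (snG T M0 ≫ s) :=
        Ext.mk₀_add _ _
      rw [e2, Ext.comp_add, ← as2, ← as2,
        vT t 1 (by norm_num) (y.comp (Ext.mk₀ (fsG T M0)) (add_zero 1)), Ext.zero_comp, zero_add]
    rw [e1] at hy
    obtain ⟨c, hc, hc2⟩ := del_surj (f ^ t) (r0.pow t) (J ^ t) (Ideal.pow_mem_pow hf t)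
      (y.comp (Ext.mk₀ (snG T M0)) (add_zero 1))
    have c1 : ∀ r ∈ J ^ t, ∃ m'' : B, r • s.hom c = (f ^ t) • m'' := by
      intro r hr
      obtain ⟨m, hm⟩ := hc r hr
      refine ⟨s.hom m, ?_⟩
      rw [← map_smul, hm, map_smul]
    rw [hc2, del_map (f ^ t) (r0.pow t) (rB.pow t) (J ^ t) s c hc c1] at hy
    have c2 : ∀ r ∈ J ^ t, ∃ m' : B, r • g = f • m' :=
      fun a ha => hg' a (Ideal.pow_le_pow_right ht ha)
    have ht' : f * f ^ (t - 1) = f ^ t := by
      rw [← pow_succ', Nat.sub_add_cancel ht]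
    have c3 : ∀ r ∈ J ^ t, ∃ m' : B, r • (f ^ (t - 1) • g) = (f * f ^ (t - 1)) • m' := by
      intro r hr
      obtain ⟨m, hm⟩ := c2 r hr
      exact ⟨m, by rw [smul_comm, hm, ← mul_smul, mul_comm]⟩
    rw [del_up f (f ^ (t - 1)) rB (rB.mul (rB.pow (t - 1))) (J ^ t) g c2 c3] at hy
    have hy' : del (f ^ t) (rB.pow t) (J ^ t) (s.hom c) c1 =
        del (f ^ t) (rB.pow t) (J ^ t) (f ^ (t - 1) • g) (by rw [← ht']; exact c3) := by
      rw [hy]
      congr 1
    obtain ⟨z, hz⟩ := del_inj _ _ _ _ _ _ _ (fun f0 => by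
      have := vB t 0 (by norm_num) (Ext.mk₀ f0)
      exact mk0_eq_zero this) hy'.symm
    refine non (t - 1) c z ?_
    rw [hz, Nat.sub_add_cancel ht]

end

end Pool.Agent.H215R3.LC
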