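import Pool.Agent.H215R3.LC.ExtB

/-!
# Short exact sequences with explicit objects
-/

set_option autoImplicit false

namespace Pool.Agent.H215R3.LC

open CategoryTheory Limits Opposite Abelian

noncomputable section

variable {R : Type} [CommRing R] {X Y Z X' Y' Z' N : MC R}

/-- short exact sequences -/
structure SE (f : X ⟶ Y) (g : Y ⟶ Z) : Prop where
  inj : Function.Injective f.hom
  surj : Function.Surjective g.hom
  ex : ∀ y, g.hom y = 0 ↔ ∃ x, f.hom x = y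

lemma SE.w {f : X ⟶ Y} {g : Y ⟶ Z} (h : SE f g) : f ≫ g = 0 := by
  apply ModuleCat.hom_ext
  apply LinearMap.ext
  intro x
  exact (h.ex _).2 ⟨x, rfl⟩

lemma SE.se {f : X ⟶ Y} {g : Y ⟶ Z} (h : SE f g) : (ShortComplex.mk f g h.w).ShortExact := by
  have hm : Mono f := (ModuleCat.mono_iff_injective f).2 h.inj
  have he : Epi g := (ModuleCat.epi_iff_surjective g).2 h.surj
  refine @ShortComplex.ShortExact.mk _ _ _ (ShortComplex.mk f g h.w) ?_ hm he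
  rw [ShortComplex.moduleCat_exact_iff]
  intro a ha
  exact (h.ex a).1 ha

/-- the class of a short exact sequence -/
def cl {f : X ⟶ Y} {g : Y ⟶ Z} (h : SE f g) : Ext.{0} Z X 1 := h.se.extClass

lemma cl_ex1 {f : X ⟶ Y} {g : Y ⟶ Z} (h : SE f g) {n : ℕ} (x : Ext.{0} N X (n + 1))
    (hx : x.comp (Ext.mk₀ f) (add_zero _) = 0) :
    ∃ z : Ext.{0} N Z n, z.comp (cl h) rfl = x :=
  Ext.covariant_sequence_exact₁ N h.se x hx rfl

lemma cl_ex3 {f : X ⟶ Y} {g : Y ⟶ Z} (h : SE f g) {n : ℕ} (z : Ext.{0} N Z n)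
    (hz : z.comp (cl h) rfl = 0) :
    ∃ y : Ext.{0} N Y n, y.comp (Ext.mk₀ g) (add_zero _) = z :=
  Ext.covariant_sequence_exact₃ N h.se z rfl hz

lemma cl_ex2 {f : X ⟶ Y} {g : Y ⟶ Z} (h : SE f g) {n : ℕ} (y : Ext.{0} N Y n)
    (hy : y.comp (Ext.mk₀ g) (add_zero _) = 0) :
    ∃ x : Ext.{0} N X n, x.comp (Ext.mk₀ f) (add_zero _) = y :=
  Ext.covariant_sequence_exact₂ N h.se y hy

lemma g_cl {f : X ⟶ Y} {g : Y ⟶ Z} (h : SE f g) :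
    (Ext.mk₀ g).comp (cl h) (zero_add 1) = 0 := h.se.comp_extClass

lemma cl_nat {f : X ⟶ Y} {g : Y ⟶ Z} (h : SE f g) {f' : X' ⟶ Y'} {g' : Y' ⟶ Z'} (h' : SE f' g')
    (a : X ⟶ X') (b : Y ⟶ Y') (c : Z ⟶ Z') (h1 : a ≫ f' = f ≫ b) (h2 : b ≫ g' = g ≫ c) :
    (cl h).comp (Ext.mk₀ a) (add_zero 1) = (Ext.mk₀ c).comp (cl h') (zero_add 1) := by
  let mor : ShortComplex.mk f g h.w ⟶ ShortComplex.mk f' g' h'.w := ⟨a, b, c, h1, h2⟩
  exact h.se.extClass_naturality h'.se mor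

lemma SE.map {f : X ⟶ Y} {g : Y ⟶ Z} (h : SE f g) (F : R →+* R) :
    SE ((ModuleCat.restrictScalars F).map f) ((ModuleCat.restrictScalars F).map g) :=
  ⟨h.inj, h.surj, h.ex⟩

/-- associativity, three terms, degree zero second -/
lemma as2 {n : ℕ} (α : Ext.{0} N X n) (f : X ⟶ Y) (g : Y ⟶ Z) :
    (α.comp (Ext.mk₀ f) (add_zero n)).comp (Ext.mk₀ g) (add_zero n) =
      α.comp (Ext.mk₀ (f ≫ g)) (add_zero n) := by
  rw [← Ext.mk₀_comp_mk₀, Ext.comp_assoc (a₁₂ := n) (a₂₃ := 0) (a := n) _ _ _ (add_zero n)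
    (zero_add 0) (by rfl)]

lemma as1 {n : ℕ} (α : Ext.{0} N X n) (e : Ext.{0} X Y 1) (g : Y ⟶ Z) :
    (α.comp e rfl).comp (Ext.mk₀ g) (add_zero (n + 1)) =
      α.comp (e.comp (Ext.mk₀ g) (add_zero 1)) rfl :=
  Ext.comp_assoc (a₁₂ := n + 1) (a₂₃ := 1) (a := n + 1) _ _ _ rfl (add_zero 1) (by rfl)

lemma as0 {n : ℕ} (α : Ext.{0} N X n) (g : X ⟶ Y) (e : Ext.{0} Y Z 1) :
    α.comp ((Ext.mk₀ g).comp e (zero_add 1)) rfl =
      (α.comp (Ext.mk₀ g) (add_zero n)).comp e (rfl : n + 1 = n + 1) :=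
  (Ext.comp_assoc (a₁₂ := n) (a₂₃ := 1) (a := n + 1) _ _ _ (add_zero n) (zero_add 1)
    (by rfl)).symm

lemma asp {n : ℕ} (p : N ⟶ X) (α : Ext.{0} X Y n) (e : Ext.{0} Y Z 1) :
    (Ext.mk₀ p).comp (α.comp e rfl) (zero_add (n + 1)) =
      ((Ext.mk₀ p).comp α (zero_add n)).comp e rfl :=
  (Ext.comp_assoc (a₁₂ := n) (a₂₃ := n + 1) (a := n + 1) _ _ _ (zero_add n) rfl
    (by rw [zero_add])).symm

lemma aspm {n : ℕ} (p : N ⟶ X) (α : Ext.{0} X Y n) (g : Y ⟶ Z) :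
    (Ext.mk₀ p).comp (α.comp (Ext.mk₀ g) (add_zero n)) (zero_add n) =
      ((Ext.mk₀ p).comp α (zero_add n)).comp (Ext.mk₀ g) (add_zero n) :=
  (Ext.comp_assoc (a₁₂ := n) (a₂₃ := n) (a := n) _ _ _ (zero_add n) (add_zero n)
    (by omega)).symm

lemma mk0_inj {f g : X ⟶ Y} (h : Ext.mk₀ f = (Ext.mk₀ g : Ext.{0} X Y 0)) : f = g :=
  (Ext.mk₀_bijective _ _).1 h

lemma mk0_eq_zero {f : X ⟶ Y} (h : (Ext.mk₀ f : Ext.{0} X Y 0) = 0) : f = 0 :=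
  mk0_inj (by rw [h, Ext.mk₀_zero])

lemma exists_mk0 (x : Ext.{0} X Y 0) : ∃ f : X ⟶ Y, Ext.mk₀ f = x := (Ext.mk₀_bijective _ _).2 x

end

end Pool.Agent.H215R3.LC
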