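import Pool.Agent.H215R3.LC.ExtB

/-!
# Vanishing of Ext in low degrees
-/

set_option autoImplicit false

namespace Pool.Agent.H215R3.LC

open CategoryTheory Limits Opposite Abelian

noncomputable section

variable {R : Type} [CommRing R]

/-- a ring as a module through a ring homomorphism -/
def Md {A : Type} [CommRing A] (ρ : R →+* A) : MC R :=
  @ModuleCat.of R _ A _ (Module.compHom A ρ)

/-- constructor for maps -/
def mkM {A A' : Type} [CommRing A] [CommRing A'] (ρ : R →+* A) (ρ' : R →+* A') (g : A →+ A')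
    (h : ∀ r a, g (ρ r * a) = ρ' r * g a) : Md ρ ⟶ Md ρ' :=
  letI := Module.compHom A ρ
  letI := Module.compHom A' ρ'
  ModuleCat.ofHom (Y := A') { toFun := g, map_add' := g.map_add, map_smul' := h }

lemma mkM_apply {A A' : Type} [CommRing A] [CommRing A'] (ρ : R →+* A) (ρ' : R →+* A')
    (g : A →+ A') (h : ∀ r a, g (ρ r * a) = ρ' r * g a) (a : A) :
    (mkM ρ ρ' g h).hom a = g a := rfl

/-- multiplication by an element -/
def mulM {A : Type} [CommRing A] (ρ : R →+* A) (a : A) : Md ρ ⟶ Md ρ :=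
  mkM ρ ρ (AddMonoidHom.mulLeft a) (fun r b => mul_left_comm a (ρ r) b)

lemma mulM_ext {A A' : Type} [CommRing A] [CommRing A'] {ρ : R →+* A} {ρ' : R →+* A'}
    {f g : Md ρ ⟶ Md ρ'} (h : ∀ a : A, (f.hom a : Md ρ') = (g.hom a : Md ρ')) : f = g := by
  apply ModuleCat.hom_ext
  exact LinearMap.ext h

lemma mulM_zero_comp {A : Type} [CommRing A] (ρ : R →+* A) (I : Ideal R) (n : ℕ)
    (α : Ext.{0} (QI I) (Md ρ) n) (c : A) (hc : c ∈ I.map ρ) :
    α.comp (Ext.mk₀ (mulM ρ c)) (add_zero n) = 0 := by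
  unfold Ideal.map at hc
  induction hc using Submodule.span_induction with
  | mem c hc =>
    obtain ⟨r, hr, rfl⟩ := hc
    have e : mulM ρ (ρ r) = r • 𝟙 (Md ρ) := by
      apply mulM_ext
      intro a
      rfl
    rw [e, Ext.mk₀_smul, Ext.comp_smul]
    exact smul_ext_zero _ r hr
  | zero =>
    have e : mulM ρ (0 : A) = 0 := by
      apply mulM_ext
      intro a
      exact zero_mul a
    rw [e, Ext.mk₀_zero, Ext.comp_zero]
  | add a b _ _ ha hb =>
    have e : mulM ρ (a + b) = mulM ρ a + mulM ρ b := by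
      apply mulM_ext
      intro x
      exact add_mul a b x
    rw [e, Ext.mk₀_add, Ext.comp_add, ha, hb, add_zero]
  | smul a b _ hb =>
    have e : mulM ρ (a • b) = mulM ρ b ≫ mulM ρ a := by
      apply mulM_ext
      intro x
      exact mul_assoc a b x
    rw [e, ← Ext.mk₀_comp_mk₀, ← Ext.comp_assoc (a₁₂ := n) (a₂₃ := 0) (a := n) _ _ _ (add_zero n)
      (zero_add 0) (by rfl), hb, Ext.zero_comp]

/-- vanishing of all Ext of degree less than `i` -/
def Vn (I : Ideal R) (M : MC R) (i : ℕ) : Prop :=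
  ∀ j < i, ∀ α : Ext.{0} (QI I) M j, α = 0

lemma Vn_zero (I : Ideal R) (M : MC R) : Vn I M 0 := fun j hj => absurd hj (Nat.not_lt_zero j)

/-- the multiplication sequence -/
lemma Vn_succ {A A' : Type} [CommRing A] [CommRing A'] (ρ : R →+* A) (q : A →+* A')
    (hq : Function.Surjective q) (w : A) (hw : ∀ a, w * a = 0 → a = 0)
    (hk : ∀ a, q a = 0 ↔ ∃ b, a = w * b) (I : Ideal R) (k : ℕ) (hI : w ^ k ∈ I.map ρ) (i : ℕ)
    (h : Vn I (Md (q.comp ρ)) i) : Vn I (Md ρ) (i + 1) := by
  let g : Md ρ ⟶ Md (q.comp ρ) := mkM ρ (q.comp ρ) q.toAddMonoidHom (fun r a => map_mul q _ _)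
  let S : ShortComplex (MC R) := ShortComplex.mk (mulM ρ w) g (by
    apply mulM_ext
    intro a
    exact (hk (w * a)).2 ⟨a, rfl⟩)
  have hS : S.ShortExact := by
    have hm : Mono (mulM ρ w) := by
      rw [ModuleCat.mono_iff_injective, injective_iff_map_eq_zero]
      intro a ha
      exact hw a ha
    have he : Epi g := by
      rw [ModuleCat.epi_iff_surjective]
      exact hq
    refine @ShortComplex.ShortExact.mk _ _ _ S ?_ hm he
    rw [ShortComplex.moduleCat_exact_iff]
    intro a ha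
    obtain ⟨b, hb⟩ := (hk a).1 ha
    exact ⟨b, hb.symm⟩
  intro j hj α
  have inj : ∀ β : Ext.{0} (QI I) (Md ρ) j,
      β.comp (Ext.mk₀ (mulM ρ w)) (add_zero j) = 0 → β = 0 := by
    intro β hβ
    rcases j with _ | j
    · obtain ⟨f, rfl⟩ := (Ext.mk₀_bijective _ _).2 β
      rw [Ext.mk₀_comp_mk₀] at hβ
      have h1 : f ≫ mulM ρ w = 0 := by
        apply (Ext.mk₀_bijective _ _).1
        rw [hβ, Ext.mk₀_zero]
      have h2 : f = 0 := by
        have hm : Mono (mulM ρ w) := hS.mono_f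
        rw [← cancel_mono (mulM ρ w), h1, zero_comp]
      rw [h2, Ext.mk₀_zero]
    · obtain ⟨x, hx⟩ := Ext.covariant_sequence_exact₁ (QI I) hS β hβ rfl
      rw [← hx, h j (by omega) x, Ext.zero_comp]
  have h3 : ∀ m : ℕ, ∀ β : Ext.{0} (QI I) (Md ρ) j,
      β.comp (Ext.mk₀ (mulM ρ (w ^ m))) (add_zero j) = 0 → β = 0 := by
    intro m
    induction m with
    | zero =>
      intro β hβ
      have e : mulM ρ (w ^ 0) = 𝟙 (Md ρ) := by
        apply mulM_ext
        intro x
        change w ^ 0 * x = x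
        rw [pow_zero, one_mul]
      rw [e, Ext.comp_mk₀_id] at hβ
      exact hβ
    | succ m ih =>
      intro β hβ
      have e : mulM ρ (w ^ (m + 1)) = mulM ρ (w ^ m) ≫ mulM ρ w := by
        apply mulM_ext
        intro x
        change w ^ (m + 1) * x = w * (w ^ m * x)
        ring
      rw [e, ← Ext.mk₀_comp_mk₀, ← Ext.comp_assoc (a₁₂ := j) (a₂₃ := 0) (a := j) _ _ _ (add_zero j)
        (zero_add 0) (by rfl)] at hβ
      exact ih β (inj _ hβ)
  exact h3 k α (mulM_zero_comp ρ I j α _ hI)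

end

end Pool.Agent.H215R3.LC
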