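import Pool.Agent.H215R3.LC.Tors
import Pool.Agent.H215R3.LC.Van
import Pool.Agent.H215R3.LC.SE

/-!
# A criterion for F-injectivity
-/

set_option autoImplicit false

namespace Pool.Agent.H215R3.LC

open CategoryTheory Limits Opposite Abelian

noncomputable section

variable {R A : Type} [CommRing R] [CommRing A]

/-- the inclusion of the ring -/
def inM (ρ : R →+* A) : ModuleCat.of R R ⟶ Md ρ :=
  letI := Module.compHom A ρ
  ModuleCat.ofHom (Y := A) { toFun := ρ, map_add' := map_add ρ, map_smul' := map_mul ρ }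

lemma inM_apply (ρ : R →+* A) (x : R) : (inM ρ).hom x = ρ x := rfl

/-- constructor for maps -/
def mkG {M N : MC R} (g : M → N) (h1 : ∀ x y, g (x + y) = g x + g y)
    (h2 : ∀ (r : R) x, g (r • x) = r • g x) : M ⟶ N :=
  ModuleCat.ofHom { toFun := g, map_add' := h1, map_smul' := h2 }

/-- quotient module -/
def QG (M : MC R) (p : Submodule R M) : MC R := ModuleCat.of R (M ⧸ p)

/-- the quotient map -/
def qG (M : MC R) (p : Submodule R M) : M ⟶ QG M p := ModuleCat.ofHom (Submodule.mkQ p)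

lemma qG_zero (M : MC R) (p : Submodule R M) (m : M) : (qG M p).hom m = 0 ↔ m ∈ p :=
  Submodule.Quotient.mk_eq_zero p

lemma qG_surj (M : MC R) (p : Submodule R M) : Function.Surjective (qG M p).hom :=
  Submodule.mkQ_surjective p

/-- lifting to the quotient -/
def liG {M N : MC R} (p : Submodule R M) (g : M ⟶ N) (h : ∀ m ∈ p, g.hom m = 0) : QG M p ⟶ N :=
  ModuleCat.ofHom (Submodule.liftQ p g.hom h)

lemma liG_apply {M N : MC R} (p : Submodule R M) (g : M ⟶ N) (h : ∀ m ∈ p, g.hom m = 0) (m : M) :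
    (liG p g h).hom ((qG M p).hom m) = g.hom m := rfl

/-- the range -/
def rgM (ρ : R →+* A) : Submodule R (Md ρ) := LinearMap.range (inM ρ).hom

/-- the quotient of an extension ring by the ring -/
def VM (ρ : R →+* A) : MC R := QG (Md ρ) (rgM ρ)

/-- the quotient map -/
def quM (ρ : R →+* A) : Md ρ ⟶ VM ρ := qG (Md ρ) (rgM ρ)

lemma quM_zero (ρ : R →+* A) (a : A) : (quM ρ).hom a = 0 ↔ ∃ x, ρ x = a :=
  qG_zero _ _ _

lemma quM_surj (ρ : R →+* A) : Function.Surjective (quM ρ).hom := qG_surj _ _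

lemma SM_exact (ρ : R →+* A) (hρ : Function.Injective ρ) : SE (inM ρ) (quM ρ) :=
  ⟨hρ, quM_surj ρ, fun a => quM_zero ρ a⟩

/-- the criterion -/
theorem finj_crit [IsNoetherianRing R] (J : Ideal R) (ρ : R →+* A) (hρ : Function.Injective ρ)
    (hJ : ∀ a : A, ∃ n : ℕ, ∀ r ∈ J ^ n, ∃ x, ρ x = ρ r * a)
    (h2 : ∀ x y : A, (x + y) ^ 2 = x ^ 2 + y ^ 2)
    (hc : ∀ a : A, (∃ x, ρ x = a ^ 2) → ∃ x, ρ x = a)
    (w : R) (hw : w ∈ J) (hwr : ∀ a : A, ρ w * a = 0 → a = 0)
    (Ψ : A →+ A) (hΨ : ∀ x a, Ψ (ρ x ^ 2 * a) = ρ x * Ψ a) (hΨ2 : ∀ a, Ψ (a ^ 2) = a)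
    (F : R →+* R) (hF : ∀ x, F x = x ^ 2)
    (φ : ModuleCat.of R R ⟶ (ModuleCat.restrictScalars F).obj (ModuleCat.of R R))
    (hφ : ∀ x : R, φ.hom x = F x) (i : ℕ) :
    Function.Injective ((localCohomology J i).map φ).hom := by
  let FF := ModuleCat.restrictScalars.{0} F
  let φA : Md ρ ⟶ FF.obj (Md ρ) := mkG (M := Md ρ) (N := FF.obj (Md ρ))
    (fun a : A => (a ^ 2 : A)) h2 (by
        intro r (a : A)
        have : (ρ r * a) ^ 2 = ρ (F r) * a ^ 2 := by rw [hF, map_pow, mul_pow]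
        exact this)
  have hφA : ∀ a : A, φA.hom a = (a ^ 2 : A) := fun a => rfl
  let ΨA : FF.obj (Md ρ) ⟶ Md ρ := mkG (M := FF.obj (Md ρ)) (N := Md ρ)
    (fun a : A => (Ψ a : A)) (map_add Ψ) (by
        intro r (a : A)
        have : Ψ (ρ (F r) * a) = ρ r * Ψ a := by rw [hF, map_pow, hΨ]
        exact this)
  have hsplit : φA ≫ ΨA = 𝟙 (Md ρ) := by
    apply mulM_ext
    intro a
    exact hΨ2 a
  have hcomm : φ ≫ FF.map (inM ρ) = inM ρ ≫ φA := by
    apply ModuleCat.hom_ext
    apply LinearMap.ext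
    intro x
    have h : ρ (F x) = (ρ x) ^ 2 := by rw [hF, map_pow]
    exact (congrArg (inM ρ).hom (hφ x)).trans h
  apply injective_of
  intro t α hα
  have h3 : α.comp (Ext.mk₀ (inM ρ)) (add_zero i) = 0 := by
    have e : inM ρ = φ ≫ (FF.map (inM ρ) ≫ ΨA) := by
      rw [← Category.assoc, hcomm, Category.assoc, hsplit, Category.comp_id]
    rw [e, ← as2, hα, Ext.zero_comp]
  have hS := SM_exact ρ hρ
  rcases i with _ | n
  · obtain ⟨f, rfl⟩ := exists_mk0 α
    rw [Ext.mk₀_comp_mk₀] at h3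
    have h4 : f ≫ inM ρ = 0 := mk0_eq_zero h3
    have h5 : f = 0 := by
      apply QI_ext
      apply hS.inj
      exact (congrArg (fun ψ => ψ.hom (Submodule.Quotient.mk (1 : R))) h4).trans
        (map_zero (inM ρ).hom).symm
    refine ⟨t, le_rfl, ?_⟩
    rw [h5, Ext.mk₀_zero, pb, Ext.comp_zero]
  · obtain ⟨x, hx⟩ := cl_ex1 hS α h3
    rcases n with _ | m
    · obtain ⟨f, rfl⟩ := exists_mk0 x
      have hSF := hS.map F
      let φV : VM ρ ⟶ FF.obj (VM ρ) := liG (rgM ρ) (φA ≫ FF.map (quM ρ)) (by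
          rintro _ ⟨x, rfl⟩
          exact (quM_zero ρ ((ρ x) ^ 2)).2 ⟨x ^ 2, map_pow ρ x 2⟩)
      have hφV : ∀ a : A, φV.hom ((quM ρ).hom a) = (quM ρ).hom (a ^ 2 : A) := fun a => rfl
      have nat := cl_nat hS hSF φ φA φV hcomm (by
        apply ModuleCat.hom_ext
        apply LinearMap.ext
        intro x
        rfl)
      have h4 : (Ext.mk₀ (f ≫ φV)).comp (cl hSF) rfl = 0 := by
        rw [← Ext.mk₀_comp_mk₀, ← as0, ← nat, ← as1, hx, hα]
      obtain ⟨y, hy⟩ := cl_ex3 hSF _ h4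
      obtain ⟨g, rfl⟩ := exists_mk0 y
      have hg : g = 0 := by
        apply QI_ext
        have h5 : ∀ r ∈ J ^ t, r • (g.hom (Submodule.Quotient.mk (1 : R))) = 0 := by
          intro r hr
          rw [← g.hom.map_smul]
          have : r • (Submodule.Quotient.mk (1 : R) : R ⧸ J ^ t) = 0 := by
            rw [← Submodule.Quotient.mk_smul, Submodule.Quotient.mk_eq_zero, smul_eq_mul, mul_one]
            exact hr
          rw [this]
          exact map_zero g.hom
        have h6 := h5 (w ^ t) (Ideal.pow_mem_pow hw t)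
        have h7 : ∀ a : A, ρ (F (w ^ t)) * a = 0 → a = 0 := by
          intro a ha
          rw [hF, ← pow_mul, map_pow] at ha
          generalize t * 2 = n at ha
          induction n with
          | zero => rwa [pow_zero, one_mul] at ha
          | succ n ih =>
            rw [pow_succ', mul_assoc] at ha
            exact ih (hwr _ ha)
        exact h7 _ h6
      have h8 : f ≫ φV = 0 := by
        apply mk0_eq_zero
        rw [← hy, hg, Ext.mk₀_zero, Ext.zero_comp]
      have h9 : f = 0 := by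
        apply QI_ext
        obtain ⟨a, ha⟩ := quM_surj ρ (f.hom (Submodule.Quotient.mk (1 : R)))
        have h10 : φV.hom (f.hom (Submodule.Quotient.mk (1 : R))) = 0 :=
          congrArg (fun ψ => ψ.hom (Submodule.Quotient.mk (1 : R))) h8
        have h11 : φV.hom ((quM ρ).hom a) = 0 := (congrArg φV.hom ha).trans h10
        have h12 := hc a ((quM_zero ρ _).1 h11)
        have h13 := (quM_zero ρ a).2 h12
        exact ha.symm.trans h13
      refine ⟨t, le_rfl, ?_⟩
      rw [← hx, h9, Ext.mk₀_zero, Ext.zero_comp, pb, Ext.comp_zero]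
    · have hT : IsTo J (VM ρ) := by
        intro v
        obtain ⟨a, ha⟩ := quM_surj ρ v
        obtain ⟨n, hn⟩ := hJ a
        refine ⟨n, fun r hr => ?_⟩
        rw [← ha]
        let a' : A := a
        exact ((quM ρ).hom.map_smul r a).symm.trans ((quM_zero ρ (ρ r * a')).2 (hn r hr))
      obtain ⟨s, h, hs⟩ := tors_ev J m (VM ρ) hT t x
      refine ⟨s, h, ?_⟩
      rw [← hx, pb, asp]
      have : (Ext.mk₀ (prJ J h)).comp x (zero_add (m + 1)) = 0 := hs
      rw [this, Ext.zero_comp]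

end

end Pool.Agent.H215R3.LC
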