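import Pool.Agent.H215R3.LC.RRing

/-!
# The reduction map
-/

set_option autoImplicit false

namespace Pool.Agent.H215R3.LC

noncomputable section

/-- reduction of coefficients -/
def pi0 : BR →+* KK where
  toFun z := ⟨PowerSeries.constantCoeff z.re, PowerSeries.constantCoeff z.im⟩
  map_one' := by
    ext
    · simp
    · simp
  map_zero' := by
    ext
    · simp
    · simp
  map_add' x y := by
    ext
    · simp
    · simp
  map_mul' x y := by
    ext
    · simp
    · simp

lemma pi0_re (z : BR) : (pi0 z).re = PowerSeries.constantCoeff z.re := rfl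
lemma pi0_im (z : BR) : (pi0 z).im = PowerSeries.constantCoeff z.im := rfl

lemma pi0_sR (z : BR) : pi0 (sR z) = pi0 z := by
  ext
  · change PowerSeries.constantCoeff (sg _ _ z).re = PowerSeries.constantCoeff z.re
    rw [sg_re]
    simp
  · rfl

lemma pi0_ker (z : BR) (hz : pi0 z = 0) : ∃ y, z = f0 * y := by
  have h1 : PowerSeries.constantCoeff z.re = 0 := congrArg QuadraticAlgebra.re hz
  have h2 : PowerSeries.constantCoeff z.im = 0 := congrArg QuadraticAlgebra.im hz
  obtain ⟨x, hx⟩ := PowerSeries.X_dvd_iff.2 h1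
  obtain ⟨y, hy⟩ := PowerSeries.X_dvd_iff.2 h2
  refine ⟨⟨x, y⟩, ?_⟩
  ext : 1
  · rw [f0_re]
    exact hx
  · rw [f0_im]
    exact hy

lemma pi0_f0 : pi0 f0 = 0 := by
  ext
  · exact PowerSeries.constantCoeff_X
  · exact map_zero _

/-- reduction of series -/
abbrev piT : TT BR →+* TT KK := PowerSeries.map pi0
abbrev piC : CC BR →+* CC KK := PowerSeries.map piT

lemma eu_piC (h : CC BR) : eu (piC h) = piT (eu h) := by
  change PowerSeries.constantCoeff _ = _
  rw [← PowerSeries.coeff_zero_eq_constantCoeff_apply, PowerSeries.coeff_map,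
    PowerSeries.coeff_zero_eq_constantCoeff_apply]

lemma e0_piT (P : TT BR) : e0 (piT P) = pi0 (e0 P) := by
  change PowerSeries.constantCoeff _ = _
  rw [← PowerSeries.coeff_zero_eq_constantCoeff_apply, PowerSeries.coeff_map,
    PowerSeries.coeff_zero_eq_constantCoeff_apply]

lemma ev_piC (h : CC BR) : ev (piC h) = piT (ev h) := by
  ext n : 1
  rw [PowerSeries.coeff_map, PowerSeries.coeff_map, PowerSeries.coeff_map, PowerSeries.coeff_map]
  exact e0_piT _

lemma pi_B1 (z : BR) (hz : z ∈ B1R) : pi0 z ∈ B1 aa (0 : k2) tau := by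
  refine ⟨?_, ?_⟩
  · rw [pi0_im, hz.1, map_zero]
  · rw [pi0_re]
    have h := congrArg (PowerSeries.coeff 0) hz.2
    rw [PowerSeries.coeff_map, PowerSeries.coeff_zero_eq_constantCoeff_apply] at h
    exact h

lemma piC_mem (h : CC BR) (hh : h ∈ RR) : piC h ∈ SS := by
  refine ⟨?_, ?_⟩
  · rw [ev_piC, eu_piC, hh.1, map_sg_KK]
    ext n : 1
    rw [PowerSeries.coeff_map, PowerSeries.coeff_map, PowerSeries.coeff_map, pi0_sR]
  · rw [eu_piC, e0_piT]
    exact pi_B1 _ hh.2

/-- the reduction map -/
def piR : RR →+* SS := (piC.comp RR.subtype).codRestrict SS (fun h => piC_mem h.1 h.2)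

lemma piR_val (h : RR) : (piR h).1 = piC h.1 := rfl

lemma exists_div (h : CC BR) (hh : piC h = 0) : ∃ g, h = ic f0 * g := by
  have h1 : ∀ i j, ∃ y, PowerSeries.coeff j (PowerSeries.coeff i h) = f0 * y := by
    intro i j
    apply pi0_ker
    have := congrArg (fun t => PowerSeries.coeff j (PowerSeries.coeff i t)) hh
    simp only [PowerSeries.coeff_map, map_zero] at this
    exact this
  choose y hy using h1
  refine ⟨PowerSeries.mk fun i => PowerSeries.mk fun j => y i j, ?_⟩
  ext i : 1
  ext j : 1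
  have : ic f0 = PowerSeries.C (PowerSeries.C f0) := rfl
  rw [this, PowerSeries.coeff_C_mul, PowerSeries.coeff_mk, PowerSeries.coeff_C_mul,
    PowerSeries.coeff_mk, hy]

lemma icf0_cancel (g g' : CC BR) (h : ic f0 * g = ic f0 * g') : g = g' := by
  ext i : 1
  ext j : 1
  have := congrArg (fun t => PowerSeries.coeff j (PowerSeries.coeff i t)) h
  have e : ic f0 = PowerSeries.C (PowerSeries.C f0) := rfl
  simp only [e, PowerSeries.coeff_C_mul] at this
  exact f0_cancel this

lemma Cf0_cancel (g g' : TT BR) (h : PowerSeries.C f0 * g = PowerSeries.C f0 * g') : g = g' := by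
  ext j : 1
  have := congrArg (fun t => PowerSeries.coeff j t) h
  simp only [PowerSeries.coeff_C_mul] at this
  exact f0_cancel this

lemma div_mem (g : CC BR) (h : ic f0 * g ∈ RR) : g ∈ RR := by
  obtain ⟨h1, h2⟩ := h
  refine ⟨?_, ?_⟩
  · rw [map_mul, map_mul, map_mul, ev_ic, eu_ic, PowerSeries.map_C, sR_B1 _ f0_mem] at h1
    exact Cf0_cancel _ _ h1
  · rw [map_mul, map_mul, eu_ic, PowerSeries.constantCoeff_C] at h2
    exact (f0_B1 _).1 h2

lemma ker_piR : RingHom.ker piR = Ideal.span {fR} := by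
  apply le_antisymm
  · intro h hh
    have h1 : piC h.1 = 0 := congrArg Subtype.val ((RingHom.mem_ker).1 hh)
    obtain ⟨g, hg⟩ := exists_div h.1 h1
    have h2 : g ∈ RR := by
      apply div_mem
      rw [← hg]
      exact h.2
    rw [Ideal.mem_span_singleton']
    refine ⟨⟨g, h2⟩, Subtype.ext ?_⟩
    rw [hg]
    exact mul_comm g (ic f0)
  · rw [Ideal.span_singleton_le_iff_mem, RingHom.mem_ker]
    apply Subtype.ext
    change piC (ic f0) = 0
    have e : piC (ic f0) = PowerSeries.C (PowerSeries.C (pi0 f0)) := by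
      change piC (PowerSeries.C (PowerSeries.C f0)) = _
      rw [PowerSeries.map_C, PowerSeries.map_C]
    rw [e, pi0_f0, map_zero, map_zero]

lemma reg_fR : IsSMulRegular RR fR := by
  intro x y h
  apply Subtype.ext
  exact icf0_cancel _ _ (congrArg Subtype.val h)

/-- a section of the reduction -/
def kap0 (z : KK) : BR := ⟨PowerSeries.C z.re, PowerSeries.C z.im⟩

lemma pi0_kap0 (z : KK) : pi0 (kap0 z) = z := by
  ext
  · exact PowerSeries.constantCoeff_C _
  · exact PowerSeries.constantCoeff_C _

lemma kap0_mem (z : KK) (hz : z ∈ B1 aa (0 : k2) tau) : kap0 z ∈ B1R := by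
  refine ⟨?_, ?_⟩
  · change PowerSeries.C z.im = 0
    rw [hz.1, map_zero]
  · change tR (PowerSeries.C z.re) = PowerSeries.C z.re
    rw [PowerSeries.map_C, hz.2]

lemma surj_piR : Function.Surjective piR := by
  intro s
  let H : CC BR := PowerSeries.mk fun i => PowerSeries.mk fun j =>
    kap0 (PowerSeries.coeff j (PowerSeries.coeff i s.1))
  have hH : piC H = s.1 := by
    ext i : 1
    ext j : 1
    rw [PowerSeries.coeff_map, PowerSeries.coeff_mk, PowerSeries.coeff_map, PowerSeries.coeff_mk,
      pi0_kap0]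
  have hH0 : e0 (eu H) = kap0 (e0 (eu s.1)) := by
    rw [← PowerSeries.coeff_zero_eq_constantCoeff_apply,
      ← PowerSeries.coeff_zero_eq_constantCoeff_apply, PowerSeries.coeff_mk, PowerSeries.coeff_mk,
      PowerSeries.coeff_zero_eq_constantCoeff_apply,
      PowerSeries.coeff_zero_eq_constantCoeff_apply]
  have hm : e0 (eu H) ∈ B1R := by
    rw [hH0]
    exact kap0_mem _ s.2.2
  let D : TT BR := PowerSeries.map sR (eu H) - ev H
  have hD0 : e0 D = 0 := by
    change e0 (PowerSeries.map sR (eu H) - ev H) = 0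
    rw [map_sub, e0_map, e0_ev, sR_B1 _ hm, sub_self]
  have hD : piT D = 0 := by
    change piT (PowerSeries.map sR (eu H) - ev H) = 0
    rw [map_sub, ← ev_piC, hH, s.2.1, map_sg_KK, ← hH, eu_piC, sub_eq_zero]
    ext n : 1
    rw [PowerSeries.coeff_map, PowerSeries.coeff_map, PowerSeries.coeff_map, pi0_sR]
  refine ⟨⟨H + iu D, ?_, ?_⟩, Subtype.ext ?_⟩
  · rw [map_add, map_add, map_add, ev_iu, eu_iu, hD0, map_zero, map_zero, add_zero]
    change ev H + (PowerSeries.map sR (eu H) - ev H) = _
    ring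
  · rw [map_add, map_add, eu_iu, hD0, map_zero, map_zero, add_zero]
    exact hm
  · change piC (H + iu D) = s.1
    rw [map_add, hH]
    have : piC (iu D) = 0 := by
      ext i : 1
      rw [PowerSeries.coeff_map]
      have e : PowerSeries.coeff i (iu D) = PowerSeries.C (PowerSeries.coeff i D) :=
        PowerSeries.coeff_map _ _ _
      rw [e, PowerSeries.map_C]
      have e2 : pi0 (PowerSeries.coeff i D) = 0 := by
        have := congrArg (PowerSeries.coeff i) hD
        rw [PowerSeries.coeff_map, map_zero] at this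
        exact this
      rw [e2, map_zero, map_zero]
    rw [this, add_zero]

end

end Pool.Agent.H215R3.LC
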