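import Pool.Agent.H215R3.LC.Glue

/-!
# Glued rings over quadratic algebras
-/

set_option autoImplicit false

namespace Pool.Agent.H215R3.LC

noncomputable section

variable {L : Type} [CommRing L] [CharP L 2] (a b : L) (τ : L →+* L)

abbrev BB (a b : L) := QuadraticAlgebra L a b

lemma char2 (x : L) : x + x = 0 := CharTwo.add_self_eq_zero x

lemma two0 : (2 : L) = 0 := CharTwo.two_eq_zero

omit [CharP L 2] in
@[simp] lemma re_one' : (1 : BB a b).re = 1 := rfl
omit [CharP L 2] in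
@[simp] lemma im_one' : (1 : BB a b).im = 0 := rfl

/-- the conjugation -/
def sg : BB a b →+* BB a b where
  toFun z := ⟨z.re + z.im * b, z.im⟩
  map_one' := by ext <;> simp
  map_zero' := by ext <;> simp
  map_add' x y := by
    ext
    · simp
      ring
    · simp
  map_mul' x y := by
    ext
    · simp
      ring
    · simp
      linear_combination (-(b * x.im * y.im)) * (two0 (L := L))

lemma sg_re (z : BB a b) : (sg a b z).re = z.re + z.im * b := rfl
lemma sg_im (z : BB a b) : (sg a b z).im = z.im := rfl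

lemma sg_sg (z : BB a b) : sg a b (sg a b z) = z := by
  ext
  · rw [sg_re, sg_re, sg_im]
    linear_combination (z.im * b) * (two0 (L := L))
  · rfl

/-- the subring -/
def B1 : Subring (BB a b) where
  carrier := {z | z.im = 0 ∧ τ z.re = z.re}
  one_mem' := ⟨rfl, map_one τ⟩
  zero_mem' := ⟨rfl, map_zero τ⟩
  mul_mem' := by
    rintro x y ⟨h1, h2⟩ ⟨h3, h4⟩
    refine ⟨?_, ?_⟩
    · simp [h1, h3]
    · simp [h1, h3, h2, h4]
  add_mem' := by
    rintro x y ⟨h1, h2⟩ ⟨h3, h4⟩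
    refine ⟨?_, ?_⟩
    · simp [h1, h3]
    · simp [h2, h4]
  neg_mem' := by
    rintro x ⟨h1, h2⟩
    refine ⟨?_, ?_⟩
    · simp [h1]
    · simp [h2]

omit [CharP L 2] in
lemma mem_B1 (z : BB a b) : z ∈ B1 a b τ ↔ z.im = 0 ∧ τ z.re = z.re := Iff.rfl

lemma sg_B1 (z : BB a b) (hz : z ∈ B1 a b τ) : sg a b z = z := by
  ext
  · rw [sg_re, hz.1, zero_mul, add_zero]
  · rfl

omit [CharP L 2] in
lemma fin_B1 (e : L) (h : ∀ x : L, ∃ y z, τ y = y ∧ τ z = z ∧ x = y + z * e) :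
    Module.Finite (B1 a b τ) (BB a b) := by
  classical
  refine ⟨⟨{1, ⟨e, 0⟩, ⟨0, 1⟩, ⟨0, e⟩}, ?_⟩⟩
  rw [eq_top_iff]
  rintro z _
  obtain ⟨x0, x1, hx0, hx1, hx⟩ := h z.re
  obtain ⟨y0, y1, hy0, hy1, hy⟩ := h z.im
  have m0 : (⟨x0, 0⟩ : BB a b) ∈ B1 a b τ := ⟨rfl, hx0⟩
  have m1 : (⟨x1, 0⟩ : BB a b) ∈ B1 a b τ := ⟨rfl, hx1⟩
  have m2 : (⟨y0, 0⟩ : BB a b) ∈ B1 a b τ := ⟨rfl, hy0⟩
  have m3 : (⟨y1, 0⟩ : BB a b) ∈ B1 a b τ := ⟨rfl, hy1⟩
  have e1 : z = (⟨_, m0⟩ : B1 a b τ) • (1 : BB a b) +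
      (⟨_, m1⟩ : B1 a b τ) • (⟨e, 0⟩ : BB a b) +
      (⟨_, m2⟩ : B1 a b τ) • (⟨0, 1⟩ : BB a b) +
      (⟨_, m3⟩ : B1 a b τ) • (⟨0, e⟩ : BB a b) := by
    have : ∀ (c : BB a b) (hc : c ∈ B1 a b τ) (d : BB a b),
      (⟨c, hc⟩ : B1 a b τ) • d = c * d := fun c hc d => rfl
    rw [this, this, this, this]
    ext
    · simp [hx]
    · simp [hy]
  rw [e1]
  refine Submodule.add_mem _ (Submodule.add_mem _ (Submodule.add_mem _ ?_ ?_) ?_) ?_ <;>
    exact Submodule.smul_mem _ _ (Submodule.subset_span (by simp))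

omit [CharP L 2] in
lemma noeth_B1 (N : Type) [CommRing N] [IsNoetherianRing N] (ι : N →+* L)
    (h1 : ∀ x, τ (ι x) = ι x) (h2 : ∀ x, τ x = x → ∃ y, ι y = x) :
    IsNoetherianRing (B1 a b τ) := by
  let κ : N →+* B1 a b τ :=
    { toFun := fun x => ⟨⟨ι x, 0⟩, rfl, h1 x⟩
      map_one' := by
        apply Subtype.ext
        ext <;> simp
      map_zero' := by
        apply Subtype.ext
        ext <;> simp
      map_add' := by
        intro x y
        apply Subtype.ext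
        ext <;> simp
      map_mul' := by
        intro x y
        apply Subtype.ext
        ext <;> simp }
  refine isNoetherianRing_of_surjective N _ κ ?_
  rintro ⟨z, hz1, hz2⟩
  obtain ⟨y, hy⟩ := h2 z.re hz2
  refine ⟨y, Subtype.ext ?_⟩
  change (⟨ι y, 0⟩ : BB a b) = z
  rw [hy]
  ext
  · rfl
  · exact hz1.symm

abbrev GR : Subring (CC (BB a b)) := GG (sg a b) (B1 a b τ)

/-- the residue -/
def chi : GR a b τ →+* L where
  toFun h := (e0 (eu h.1)).re
  map_one' := by simp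
  map_zero' := by simp
  map_add' x y := by simp
  map_mul' x y := by
    have hx := x.2.2.1
    simp [hx]

lemma isUnit_of_chi (h : GR a b τ) (hu : IsUnit (chi a b τ h)) : IsUnit h := by
  obtain ⟨y, hy⟩ := hu.exists_right_inv
  have h0 : e0 (eu h.1) * (⟨y, 0⟩ : BB a b) = 1 := by
    have hx := h.2.2.1
    have hy' : (e0 (eu h.1)).re * y = 1 := hy
    ext
    · simp [hy']
    · simp [hx]
  have hu1 : IsUnit (eu h.1) := by
    rw [PowerSeries.isUnit_iff_constantCoeff]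
    exact IsUnit.of_mul_eq_one _ h0
  have hu2 : IsUnit h.1 := by
    rw [PowerSeries.isUnit_iff_constantCoeff]
    exact hu1
  obtain ⟨g, hg⟩ := hu2.exists_right_inv
  have hty : τ y = y := by
    have h1 : (e0 (eu h.1)).re * y = 1 := hy
    have h2 : τ (e0 (eu h.1)).re = (e0 (eu h.1)).re := h.2.2.2
    have h3 : (e0 (eu h.1)).re * τ y = 1 := by
      rw [← h2, ← map_mul, h1, map_one]
    calc τ y = ((e0 (eu h.1)).re * y) * τ y := by rw [h1, one_mul]
      _ = y * ((e0 (eu h.1)).re * τ y) := by ring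
      _ = y := by rw [h3, mul_one]
  have he0 : e0 (eu g) = ⟨y, 0⟩ := by
    have h1 : e0 (eu h.1) * e0 (eu g) = 1 := by rw [← map_mul, ← map_mul, hg, map_one, map_one]
    calc e0 (eu g) = (e0 (eu h.1) * (⟨y, 0⟩ : BB a b)) * e0 (eu g) := by rw [h0, one_mul]
      _ = (⟨y, 0⟩ : BB a b) * (e0 (eu h.1) * e0 (eu g)) := by ring
      _ = _ := by rw [h1, mul_one]
  have hgm : g ∈ GR a b τ := by
    refine ⟨?_, ?_⟩
    · have h1 : ev h.1 * ev g = 1 := by rw [← map_mul, hg, map_one]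
      have h2 : PowerSeries.map (sg a b) (eu h.1) * PowerSeries.map (sg a b) (eu g) = 1 := by
        rw [← map_mul, ← map_mul, hg, map_one, map_one]
      rw [← h.2.1] at h2
      calc ev g = ev g * (ev h.1 * PowerSeries.map (sg a b) (eu g)) := by rw [h2, mul_one]
        _ = (ev h.1 * ev g) * PowerSeries.map (sg a b) (eu g) := by ring
        _ = _ := by rw [h1, one_mul]
    · rw [he0]
      exact ⟨rfl, hty⟩
  exact IsUnit.of_mul_eq_one ⟨g, hgm⟩ (Subtype.ext hg)

instance localGR [IsLocalRing L] : IsLocalRing (GR a b τ) := by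
  have : IsLocalHom (chi a b τ) := ⟨fun h hu => isUnit_of_chi a b τ h hu⟩
  exact RingHom.domain_isLocalRing (chi a b τ)

lemma mem_max [IsLocalRing L] (h : GR a b τ) :
    h ∈ IsLocalRing.maximalIdeal (GR a b τ) ↔ ¬ IsUnit (chi a b τ h) := by
  rw [IsLocalRing.mem_maximalIdeal, mem_nonunits_iff, not_iff_not]
  exact ⟨fun hu => hu.map (chi a b τ), isUnit_of_chi a b τ h⟩

lemma charGR : CharP (GR a b τ) 2 := by
  have h1 : (2 : GR a b τ) = 0 := by
    apply Subtype.ext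
    have h2 : ((2 : GR a b τ) : CC (BB a b)) = 2 := rfl
    rw [h2]
    have h3 : (2 : BB a b) = 0 := by
      have : (algebraMap L (BB a b)) 2 = 2 := map_ofNat _ 2
      rw [← this, two0, map_zero]
    have h4 : (ic (2 : BB a b)) = 2 := map_ofNat ic 2
    rw [← h4, h3, map_zero]
    rfl
  have : Nontrivial L := CharP.nontrivial_of_char_ne_one (R := L) (v := 2) (by norm_num)
  have h5 : (1 : GR a b τ) ≠ 0 := by
    intro h
    have := congrArg (chi a b τ) h
    rw [map_one, map_zero] at this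
    exact one_ne_zero this
  exact CharTwo.of_one_ne_zero_of_two_eq_zero h5 h1

end

end Pool.Agent.H215R3.LC
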