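import Pool.Agent.H215R3.LC.SRing
import Pool.Agent.H215R3.LC.PartR

/-!
# The ring which is not F-injective
-/

set_option autoImplicit false

namespace Pool.Agent.H215R3.LC

open CategoryTheory

noncomputable section

abbrev LL := PowerSeries k2
abbrev tR : LL →+* LL := PowerSeries.map tau

lemma tR_tR (x : LL) : tR (tR x) = x := by
  ext n : 1
  rw [PowerSeries.coeff_map, PowerSeries.coeff_map, tau_tau]

abbrev BR := BB (PowerSeries.C aa : LL) (PowerSeries.X ^ 2 : LL)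

lemma decompR (x : LL) : ∃ y z, tR y = y ∧ tR z = z ∧ x = y + z * PowerSeries.C aa :=
  decomp tR tR_tR (PowerSeries.C aa) (PowerSeries.C (aa + bb)⁻¹) (by
    rw [PowerSeries.map_C, tau_aa, ← map_add, ← map_mul, inv_mul_cancel₀ ab_ne, map_one]) x

instance finBR : Module.Finite (B1 (PowerSeries.C aa : LL) (PowerSeries.X ^ 2 : LL) tR) BR :=
  fin_B1 _ _ _ (PowerSeries.C aa) decompR

instance : IsNoetherianRing BR := IsNoetherianRing.of_finite LL BR

instance noethB1R : IsNoetherianRing (B1 (PowerSeries.C aa : LL) (PowerSeries.X ^ 2 : LL) tR) :=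
  noeth_B1 _ _ _ (PowerSeries kf) (PowerSeries.map kf.subtype) (fun x => by
    ext n : 1
    rw [PowerSeries.coeff_map, PowerSeries.coeff_map]
    exact (PowerSeries.coeff n x).2) (fun x hx => by
    have h : ∀ n, tau (PowerSeries.coeff n x) = PowerSeries.coeff n x := by
      intro n
      have := congrArg (PowerSeries.coeff n) hx
      rwa [PowerSeries.coeff_map] at this
    refine ⟨PowerSeries.mk fun n => (⟨PowerSeries.coeff n x, h n⟩ : kf), ?_⟩
    ext n : 1
    rw [PowerSeries.coeff_map, PowerSeries.coeff_mk]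
    rfl)

abbrev RR := GR (PowerSeries.C aa : LL) (PowerSeries.X ^ 2 : LL) tR

abbrev sR : BR →+* BR := sg (PowerSeries.C aa : LL) (PowerSeries.X ^ 2 : LL)
abbrev B1R : Subring BR := B1 (PowerSeries.C aa : LL) (PowerSeries.X ^ 2 : LL) tR

instance noethRR : IsNoetherianRing RR :=
  noethGG (fun z hz => sg_B1 _ _ _ z hz) (fun z => sg_sg _ _ z)

lemma two_BR : (2 : BR) = 0 := by
  have : (algebraMap LL BR) 2 = 2 := map_ofNat _ 2
  rw [← this, two0, map_zero]

lemma two_TTR : (2 : TT BR) = 0 := by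
  have h4 : (PowerSeries.C (2 : BR)) = 2 := map_ofNat PowerSeries.C 2
  rw [← h4, two_BR, map_zero]

lemma two_CCR : (2 : CC BR) = 0 := by
  have h4 : (ic (2 : BR)) = 2 := map_ofNat ic 2
  rw [← h4, two_BR, map_zero]

lemma sq_add_of {A : Type} [CommRing A] (h : (2 : A) = 0) (x y : A) :
    (x + y) ^ 2 = x ^ 2 + y ^ 2 := by linear_combination (x * y) * h

/-- the parameter -/
def f0 : BR := ⟨PowerSeries.X, 0⟩

lemma f0_re (z : BR) : (f0 * z).re = PowerSeries.X * z.re := by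
  rw [QuadraticAlgebra.re_mul, f0]
  simp

lemma f0_im (z : BR) : (f0 * z).im = PowerSeries.X * z.im := by
  rw [QuadraticAlgebra.im_mul, f0]
  simp

lemma X_cancel {A : Type} [CommRing A] {x y : PowerSeries A}
    (h : PowerSeries.X * x = PowerSeries.X * y) : x = y := by
  ext n : 1
  have := congrArg (PowerSeries.coeff (n + 1)) h
  rwa [PowerSeries.coeff_succ_X_mul, PowerSeries.coeff_succ_X_mul] at this

lemma f0_cancel {x y : BR} (h : f0 * x = f0 * y) : x = y := by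
  ext : 1
  · apply X_cancel
    rw [← f0_re, ← f0_re, h]
  · apply X_cancel
    rw [← f0_im, ← f0_im, h]

lemma f0_B1 (z : BR) : f0 * z ∈ B1R ↔ z ∈ B1R := by
  rw [mem_B1, mem_B1, f0_im, f0_re, map_mul, PowerSeries.map_X]
  constructor
  · rintro ⟨h1, h2⟩
    exact ⟨X_cancel (by rw [h1, mul_zero]), X_cancel h2⟩
  · rintro ⟨h1, h2⟩
    exact ⟨by rw [h1, mul_zero], by rw [h2]⟩

lemma f0_mem : f0 ∈ B1R := ⟨rfl, PowerSeries.map_X _⟩

lemma sR_B1 (z : BR) (hz : z ∈ B1R) : sR z = z := sg_B1 _ _ _ z hz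

/-- the element `f` -/
def fR : RR := ⟨ic f0, ic_mem sR_B1 f0 f0_mem⟩

abbrev JR : Ideal RR := IsLocalRing.maximalIdeal RR

/-- the structure maps -/
abbrev rC : RR →+* CC BR := RR.subtype
abbrev rT : RR →+* TT BR := ev.comp rC
abbrev rT' : RR →+* TT BR := eu.comp rC
abbrev rB : RR →+* BR := e0.comp rT

lemma rB_eq (r : RR) : rB r = e0 (eu r.1) := e0_ev r.1

lemma rB_mem (r : RR) : rB r ∈ B1R := by
  rw [rB_eq]
  exact r.2.2

lemma rB_fR : rB fR = f0 := by
  rw [rB_eq]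
  change e0 (eu (ic f0)) = f0
  rw [eu_ic, PowerSeries.constantCoeff_C]

lemma mem_JR (r : RR) : r ∈ JR ↔ PowerSeries.constantCoeff (rB r).re = 0 := by
  rw [mem_max, rB_eq]
  change ¬ IsUnit (e0 (eu r.1)).re ↔ _
  rw [PowerSeries.isUnit_iff_constantCoeff, isUnit_iff_ne_zero, not_not]

lemma fR_mem : fR ∈ JR := by
  rw [mem_JR, rB_fR]
  exact PowerSeries.constantCoeff_X

lemma JR_f0 (r : RR) (hr : r ∈ JR) : ∃ z, rB r = f0 * z := by
  obtain ⟨x, hx⟩ := PowerSeries.X_dvd_iff.2 ((mem_JR r).1 hr)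
  refine ⟨⟨x, 0⟩, ?_⟩
  ext : 1
  · rw [f0_re]
    exact hx
  · rw [f0_im]
    exact (rB_mem r).1.trans (mul_zero _).symm

lemma JR2_f0 (r : RR) (hr : r ∈ JR ^ 2) : ∃ z, rB r = f0 ^ 2 * z := by
  have h1 : JR.map rB ≤ Ideal.span {f0} := by
    rw [Ideal.map_le_iff_le_comap]
    intro r hr
    obtain ⟨z, hz⟩ := JR_f0 r hr
    rw [Ideal.mem_comap, hz]
    exact Ideal.mul_mem_right _ _ (Ideal.mem_span_singleton_self f0)
  have h2 : rB r ∈ (JR ^ 2).map rB := Ideal.mem_map_of_mem _ hr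
  rw [Ideal.map_pow] at h2
  have h3 := Ideal.pow_right_mono h1 2 h2
  rw [Ideal.span_singleton_pow, Ideal.mem_span_singleton'] at h3
  obtain ⟨z, hz⟩ := h3
  exact ⟨z, by rw [← hz, mul_comm]⟩

/-- `u + v` -/
def wR : RR := ⟨_, br_mem (σ := sR) (B1 := B1R) (PowerSeries.X : TT BR) PowerSeries.constantCoeff_X⟩

lemma wR_val : rC wR = PowerSeries.X + iv (PowerSeries.X : TT BR) := by
  have : rC wR = iu (PowerSeries.map sR PowerSeries.X) + iv (PowerSeries.X : TT BR) := rfl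
  rw [this, PowerSeries.map_X]
  congr 1
  exact PowerSeries.map_X _

/-- `u v` -/
def yR : RR := ⟨PowerSeries.X * iv (PowerSeries.X : TT BR), ker_mem _ (by
    rw [map_mul, ev_iv, PowerSeries.constantCoeff_X, map_zero, mul_zero]) (by
    rw [map_mul]
    have : eu (PowerSeries.X : CC BR) = 0 := PowerSeries.constantCoeff_X
    rw [this, zero_mul])⟩

lemma wT' : rT' wR = PowerSeries.X := by
  change eu (rC wR) = _
  rw [wR_val, map_add, eu_iv]
  have : eu (PowerSeries.X : CC BR) = 0 := PowerSeries.constantCoeff_X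
  rw [this, zero_add]

lemma wT : rT wR = PowerSeries.X := by
  change ev (rC wR) = _
  rw [wR_val, map_add, ev_iv, PowerSeries.constantCoeff_X, map_zero, add_zero]
  exact PowerSeries.map_X _

lemma wR_mem : wR ∈ JR := by
  rw [mem_JR]
  have : rB wR = 0 := by
    change e0 (rT wR) = 0
    rw [wT, PowerSeries.constantCoeff_X]
  rw [this]
  exact map_zero _

lemma yR_mem : yR ∈ JR := by
  rw [mem_JR]
  have : rB yR = 0 := by
    change e0 (ev (PowerSeries.X * iv (PowerSeries.X : TT BR))) = 0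
    rw [map_mul, ev_iv, PowerSeries.constantCoeff_X, map_zero, mul_zero, map_zero]
  rw [this]
  exact map_zero _

lemma X_reg {A : Type} [CommRing A] (a : PowerSeries A) (h : PowerSeries.X * a = 0) : a = 0 :=
  X_cancel (by rw [h, mul_zero])

lemma vB (t : ℕ) : Vn (JR ^ t) (Md rB) 1 := by
  refine Vn_succ rB (Ideal.Quotient.mk (Ideal.span {f0})) Ideal.Quotient.mk_surjective f0
    (fun a ha => f0_cancel (by rw [ha, mul_zero])) (fun a => ?_) (JR ^ t) t ?_ 0 (Vn_zero _ _)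
  · rw [Ideal.Quotient.eq_zero_iff_mem, Ideal.mem_span_singleton]
    rfl
  · rw [← rB_fR, ← map_pow]
    exact Ideal.mem_map_of_mem _ (Ideal.pow_mem_pow fR_mem t)

lemma vB' (t : ℕ) : Vn (JR ^ t) (Md (e0.comp rT')) 1 := by
  refine Vn_succ (e0.comp rT') (Ideal.Quotient.mk (Ideal.span {f0})) Ideal.Quotient.mk_surjective f0
    (fun a ha => f0_cancel (by rw [ha, mul_zero])) (fun a => ?_) (JR ^ t) t ?_ 0 (Vn_zero _ _)
  · rw [Ideal.Quotient.eq_zero_iff_mem, Ideal.mem_span_singleton]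
    rfl
  · have : (e0.comp rT') fR = f0 := by
      have := rB_fR
      rw [rB_eq] at this
      exact this
    rw [← this, ← map_pow]
    exact Ideal.mem_map_of_mem _ (Ideal.pow_mem_pow fR_mem t)

lemma e0_ker (a : TT BR) : e0 a = 0 ↔ ∃ b, a = PowerSeries.X * b := by
  rw [← PowerSeries.X_dvd_iff]
  rfl

lemma eu_ker (a : CC BR) : eu a = 0 ↔ ∃ b, a = PowerSeries.X * b := by
  rw [← PowerSeries.X_dvd_iff]
  rfl

lemma vT (t : ℕ) : Vn (JR ^ t) (Md rT) 2 := by
  refine Vn_succ rT e0 PowerSeries.constantCoeff_surj PowerSeries.X X_reg e0_ker (JR ^ t) t ?_ 1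
    (vB t)
  rw [← wT, ← map_pow]
  exact Ideal.mem_map_of_mem _ (Ideal.pow_mem_pow wR_mem t)

lemma vT' (t : ℕ) : Vn (JR ^ t) (Md rT') 2 := by
  refine Vn_succ rT' e0 PowerSeries.constantCoeff_surj PowerSeries.X X_reg e0_ker (JR ^ t) t ?_ 1
    (vB' t)
  rw [← wT', ← map_pow]
  exact Ideal.mem_map_of_mem _ (Ideal.pow_mem_pow wR_mem t)

lemma vC (t : ℕ) : Vn (JR ^ t) (Md rC) 3 := by
  refine Vn_succ rC eu PowerSeries.constantCoeff_surj PowerSeries.X X_reg eu_ker (JR ^ t) (2 * t)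
    ?_ 2 (vT' t)
  rw [pow_mul, Ideal.map_pow]
  apply Ideal.pow_mem_pow
  have h1 : (PowerSeries.X : CC BR) ^ 2 = rC wR * PowerSeries.X - rC yR := by
    rw [wR_val]
    change _ = _ - PowerSeries.X * iv (PowerSeries.X : TT BR)
    ring
  rw [h1]
  exact Ideal.sub_mem _ (Ideal.mul_mem_right _ _ (Ideal.mem_map_of_mem _ wR_mem))
    (Ideal.mem_map_of_mem _ yR_mem)

end

end Pool.Agent.H215R3.LC
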