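import Pool.Agent.H215R3.LC.Quad
import Pool.Agent.H215R3.LC.Field
import Pool.Agent.H215R3.LC.PSplit
import Pool.Agent.H215R3.LC.PartS

/-!
# The F-injective ring
-/

set_option autoImplicit false

namespace Pool.Agent.H215R3.LC

open CategoryTheory

noncomputable section

lemma decomp {L : Type} [CommRing L] [CharP L 2] (τ : L →+* L) (hτ : ∀ x, τ (τ x) = x) (e c : L)
    (hc : c * (e + τ e) = 1) (x : L) : ∃ y z, τ y = y ∧ τ z = z ∧ x = y + z * e := by
  have h2 : (2 : L) = 0 := two0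
  have hc' : τ c = c := by
    have h1 : τ c * (e + τ e) = 1 := by
      have := congrArg τ hc
      rw [map_mul, map_add, map_one, hτ, add_comm] at this
      exact this
    calc τ c = τ c * (c * (e + τ e)) := by rw [hc, mul_one]
      _ = c * (τ c * (e + τ e)) := by ring
      _ = c := by rw [h1, mul_one]
  refine ⟨x + c * (x + τ x) * e, c * (x + τ x), ?_, ?_, ?_⟩
  · rw [map_add, map_mul, map_mul, map_add, hτ, hc']
    linear_combination (x + τ x) * hc + τ x * h2 + (-(c * (x + τ x) * e)) * h2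
  · rw [map_mul, map_add, hτ, hc']
    ring
  · linear_combination (-(c * (x + τ x) * e)) * h2

abbrev KK := BB aa (0 : k2)

lemma decomp2 (x : k2) : ∃ y z, tau y = y ∧ tau z = z ∧ x = y + z * aa :=
  decomp tau tau_tau aa (aa + bb)⁻¹ (by rw [tau_aa]; exact inv_mul_cancel₀ ab_ne) x

instance finKK : Module.Finite (B1 aa (0 : k2) tau) KK := fin_B1 _ _ _ aa decomp2

instance : IsNoetherianRing KK := IsNoetherianRing.of_finite k2 KK

/-- the fixed field -/
def kf : Subfield k2 := RingHom.eqLocusField tau (RingHom.id k2)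

instance noethB1K : IsNoetherianRing (B1 aa (0 : k2) tau) :=
  noeth_B1 _ _ _ kf kf.subtype (fun x => x.2) (fun x hx => ⟨⟨x, hx⟩, rfl⟩)

abbrev SS := GR aa (0 : k2) tau

instance noethSS : IsNoetherianRing SS :=
  noethGG (fun z hz => sg_B1 _ _ _ z hz) (fun z => sg_sg _ _ z)

lemma fieldKK : IsField KK := by
  refine ⟨⟨0, 1, ?_⟩, mul_comm, ?_⟩
  · intro h
    have := congrArg QuadraticAlgebra.re h
    rw [re_one'] at this
    exact zero_ne_one this
  · intro z hz
    have hn : z.re ^ 2 + z.im ^ 2 * aa ≠ 0 := by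
      intro h
      obtain ⟨h1, h2, -⟩ := indep z.re z.im 0 (by rw [h]; simp)
      apply hz
      ext
      · exact h1
      · exact h2
    refine ⟨(⟨(z.re ^ 2 + z.im ^ 2 * aa)⁻¹, 0⟩ : KK) * z, ?_⟩
    ext
    · simp
      field_simp
    · simp
      linear_combination (z.re * z.im * (z.re ^ 2 + z.im ^ 2 * aa)⁻¹) * (two0 (L := k2))

instance : IsDomain KK := fieldKK.isDomain

lemma two_KK : (2 : KK) = 0 := by
  have : (algebraMap k2 KK) 2 = 2 := map_ofNat _ 2
  rw [← this, two0, map_zero]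

instance charKK : CharP KK 2 :=
  CharTwo.of_one_ne_zero_of_two_eq_zero one_ne_zero two_KK

lemma sg_KK (z : KK) : sg aa (0 : k2) z = z := by
  ext
  · rw [sg_re, mul_zero, add_zero]
  · rfl

lemma map_sg_KK (P : TT KK) : PowerSeries.map (sg aa (0 : k2)) P = P := by
  ext n : 1
  rw [PowerSeries.coeff_map, sg_KK]

/-- the bigger ring -/
abbrev AS := GG (sg aa (0 : k2)) (⊤ : Subring KK)

lemma SS_le : SS ≤ AS := fun _ hx => ⟨hx.1, trivial⟩

/-- the inclusion -/
def roS : SS →+* AS := Subring.inclusion SS_le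

lemma two_CCK : (2 : CC KK) = 0 := by
  have h4 : (ic (2 : KK)) = 2 := map_ofNat ic 2
  rw [← h4, two_KK, map_zero]

lemma sq_e0 (z : KK) (h : z ^ 2 ∈ B1 aa (0 : k2) tau) : z ∈ B1 aa (0 : k2) tau := by
  have h1 : tau (z ^ 2).re = (z ^ 2).re := h.2
  have h2 : (z ^ 2).re = z.re ^ 2 + z.im ^ 2 * aa := by
    rw [pow_two, QuadraticAlgebra.re_mul]
    ring
  rw [h2, map_add, map_mul, map_pow, map_pow, tau_aa] at h1
  obtain ⟨h3, h4, -⟩ := indep (z.re + tau z.re) z.im (tau z.im) (by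
    linear_combination h1 + (z.re ^ 2 + z.re * tau z.re + z.im ^ 2 * aa) * (two0 (L := k2)))
  refine ⟨h4, ?_⟩
  linear_combination h3 - z.re * (two0 (L := k2))

lemma chi_SS (r : SS) (hr : r ∈ IsLocalRing.maximalIdeal SS) : e0 (eu r.1) = 0 := by
  rw [mem_max] at hr
  have h1 : chi aa (0 : k2) tau r = 0 := by
    by_contra h
    exact hr (IsUnit.mk0 _ h)
  ext
  · exact h1
  · exact r.2.2.1

/-- the parameter -/
def wS : SS := ⟨_, br_mem (σ := sg aa (0 : k2)) (B1 := B1 aa (0 : k2) tau)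
  (PowerSeries.X : TT KK) PowerSeries.constantCoeff_X⟩

lemma eu_wS : eu wS.1 = PowerSeries.X := by
  have : eu wS.1 = eu (iu (PowerSeries.map (sg aa (0 : k2)) PowerSeries.X) +
    iv (PowerSeries.X : TT KK)) := rfl
  rw [this, map_add, eu_iu, eu_iv, e0_map, PowerSeries.constantCoeff_X, map_zero, map_zero,
    zero_add]

lemma wS_mem : wS ∈ IsLocalRing.maximalIdeal SS := by
  rw [mem_max]
  have : chi aa (0 : k2) tau wS = 0 := by
    change (e0 (eu wS.1)).re = 0
    rw [eu_wS, PowerSeries.constantCoeff_X]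
    rfl
  rw [this]
  exact not_isUnit_zero

theorem finj_SS (F : SS →+* SS) (hF : ∀ x, F x = x ^ 2)
    (φ : ModuleCat.of SS SS ⟶ (ModuleCat.restrictScalars F).obj (ModuleCat.of SS SS))
    (hφ : ∀ x : SS, φ.hom x = F x) (i : ℕ) :
    Function.Injective ((localCohomology (IsLocalRing.maximalIdeal SS) i).map φ).hom := by
  obtain ⟨l, hl, hl1⟩ := exists_split KK fieldKK
  have hmem : ∀ a : AS, LW l a.1 ∈ AS := by
    intro a
    refine ⟨?_, trivial⟩
    have h1 : ev (LW l a.1) = LV l (ev a.1) := ev_LW l a.1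
    have h2 : eu (LW l a.1) = LV l (eu a.1) := eu_LW l a.1
    have h3 := a.2.1
    rw [map_sg_KK] at h3 ⊢
    rw [h1, h2, h3]
  let Ψ : AS →+ AS :=
    { toFun := fun a => ⟨LW l a.1, hmem a⟩
      map_zero' := Subtype.ext (map_zero (LW l))
      map_add' := fun x y => Subtype.ext (map_add (LW l) x.1 y.1) }
  refine finj_crit (IsLocalRing.maximalIdeal SS) roS (Subring.inclusion_injective SS_le) ?_ ?_ ?_
    wS wS_mem ?_ Ψ ?_ ?_ F hF φ hφ i
  · intro a
    refine ⟨1, fun r hr => ?_⟩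
    rw [pow_one] at hr
    have h0 := chi_SS r hr
    refine ⟨⟨r.1 * a.1, (roS r * a).2.1, ?_⟩, rfl⟩
    rw [map_mul, map_mul, h0, zero_mul]
    exact (B1 aa (0 : k2) tau).zero_mem
  · intro x y
    apply Subtype.ext
    change (x.1 + y.1) ^ 2 = x.1 ^ 2 + y.1 ^ 2
    linear_combination (x.1 * y.1) * two_CCK
  · rintro a ⟨x, hx⟩
    have h1 : x.1 = a.1 ^ 2 := congrArg Subtype.val hx
    have h2 := x.2.2
    rw [h1, map_pow, map_pow] at h2
    exact ⟨⟨a.1, a.2.1, sq_e0 _ h2⟩, rfl⟩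
  · intro a ha
    have h1 : wS.1 * a.1 = 0 := congrArg Subtype.val ha
    have h2 : wS.1 ≠ 0 := by
      intro h
      have := congrArg eu h
      rw [eu_wS, map_zero] at this
      exact PowerSeries.X_ne_zero this
    rcases mul_eq_zero.1 h1 with h3 | h3
    · exact absurd h3 h2
    · exact Subtype.ext h3
  · intro x a
    apply Subtype.ext
    exact LW_sq_mul l hl x.1 a.1
  · intro a
    apply Subtype.ext
    change LW l (a.1 ^ 2) = a.1
    have := LW_sq_mul l hl a.1 1
    rw [mul_one, LW_one l hl1, mul_one] at this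
    exact this

end

end Pool.Agent.H215R3.LC
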