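import Pool.Agent.H215R3.LC.ExtB

/-!
# Torsion modules have no higher local cohomology
-/

set_option autoImplicit false

namespace Pool.Agent.H215R3.LC

open CategoryTheory Limits Opposite Abelian

noncomputable section

variable {R : Type} [CommRing R] (J : Ideal R)

/-- torsion with respect to an ideal -/
def IsTo (M : Type) [AddCommGroup M] [Module R M] : Prop := ∀ m : M, ∃ n : ℕ, ∀ a ∈ J ^ n, a • m = 0

/-- the torsion submodule -/
def Ga (M : Type) [AddCommGroup M] [Module R M] : Submodule R M where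
  carrier := {m | ∃ n : ℕ, ∀ a ∈ J ^ n, a • m = 0}
  zero_mem' := ⟨0, fun a _ => smul_zero a⟩
  add_mem' := by
    rintro x y ⟨n, hn⟩ ⟨m, hm⟩
    refine ⟨max n m, fun a ha => ?_⟩
    rw [smul_add, hn a (Ideal.pow_le_pow_right (le_max_left n m) ha),
      hm a (Ideal.pow_le_pow_right (le_max_right n m) ha), add_zero]
  smul_mem' := by
    rintro c x ⟨n, hn⟩
    exact ⟨n, fun a ha => by rw [smul_comm, hn a ha, smul_zero]⟩

lemma Ga_isTo (M : Type) [AddCommGroup M] [Module R M] : IsTo J (Ga J M) := by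
  rintro ⟨m, n, hn⟩
  exact ⟨n, fun a ha => Subtype.ext (hn a ha)⟩

lemma exists_kill [IsNoetherianRing R] {M : Type} [AddCommGroup M] [Module R M] (hM : IsTo J M)
    (I : Ideal R) (g : I →ₗ[R] M) : ∃ n : ℕ, ∀ a ∈ J ^ n, ∀ x : I, a • g x = 0 := by
  have hfg : (⊤ : Submodule R I).FG := IsNoetherian.noetherian _
  obtain ⟨X, hX⟩ := hfg
  have h1 : ∃ n : ℕ, ∀ x ∈ X, ∀ a ∈ J ^ n, a • g x = 0 := by
    classical
    clear hX
    induction X using Finset.induction_on with
    | empty => exact ⟨0, fun x hx => absurd hx (Finset.notMem_empty x)⟩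
    | insert y X _ ih =>
      obtain ⟨n, hn⟩ := ih
      obtain ⟨m, hm⟩ := hM (g y)
      refine ⟨max n m, fun x hx a ha => ?_⟩
      rw [Finset.mem_insert] at hx
      rcases hx with rfl | hx
      · exact hm a (Ideal.pow_le_pow_right (le_max_right n m) ha)
      · exact hn x hx a (Ideal.pow_le_pow_right (le_max_left n m) ha)
  obtain ⟨n, hn⟩ := h1
  refine ⟨n, fun a ha x => ?_⟩
  have hx : x ∈ Submodule.span R (X : Set I) := by
    rw [hX]
    trivial
  induction hx using Submodule.span_induction with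
  | mem x hx => exact hn x hx a ha
  | zero => rw [map_zero, smul_zero]
  | add x y _ _ hx hy => rw [map_add, smul_add, hx, hy, add_zero]
  | smul c x _ hx => rw [map_smul, smul_comm, hx, smul_zero]

lemma baer_Ga [IsNoetherianRing R] (E : Type) [AddCommGroup E] [Module R E] [Module.Injective R E] :
    Module.Baer R (Ga J E) := by
  intro I g
  obtain ⟨n, hn⟩ := exists_kill J (Ga_isTo J E) I g
  obtain ⟨k, hk⟩ := Ideal.exists_pow_inf_eq_pow_smul J (M := R) I
  have h1 : ∀ x : I, x.1 ∈ J ^ (n + k) → g x = 0 := by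
    intro x hx
    have h2 : x.1 ∈ J ^ (n + k) • (⊤ : Submodule R R) ⊓ I := by
      refine ⟨?_, x.2⟩
      rw [smul_eq_mul, Ideal.mul_top]
      exact hx
    rw [hk (n + k) (Nat.le_add_left k n), Nat.add_sub_cancel] at h2
    have h3 : ∀ y ∈ J ^ n • (J ^ k • (⊤ : Submodule R R) ⊓ I), ∀ hy : y ∈ I, g ⟨y, hy⟩ = 0 := by
      intro y hy
      induction hy using Submodule.smul_induction_on' with
      | smul a ha z hz =>
        intro hy
        have e : (⟨a • z, hy⟩ : I) = a • (⟨z, hz.2⟩ : I) := rfl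
        rw [e, map_smul]
        exact hn a ha _
      | add y hy' z hz' h4 h5 =>
        intro hy
        have hyI : y ∈ I := by
          have := Submodule.smul_le_right hy'
          exact this.2
        have hzI : z ∈ I := by
          have := Submodule.smul_le_right hz'
          exact this.2
        have e : (⟨y + z, hy⟩ : I) = (⟨y, hyI⟩ : I) + ⟨z, hzI⟩ := rfl
        rw [e, map_add, h4 hyI, h5 hzI, add_zero]
    exact h3 x.1 h2 x.2
  let φ : I →ₗ[R] R ⧸ J ^ (n + k) := (Submodule.mkQ (J ^ (n + k))).comp (Submodule.subtype I)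
  have h2 : LinearMap.ker φ ≤ LinearMap.ker ((Ga J E).subtype.comp g) := by
    intro x hx
    rw [LinearMap.mem_ker] at hx ⊢
    have h3 : (Submodule.Quotient.mk x.1 : R ⧸ J ^ (n + k)) = 0 := hx
    rw [Submodule.Quotient.mk_eq_zero] at h3
    change (Ga J E).subtype (g x) = 0
    rw [h1 x h3, map_zero]
  have hinj : Function.Injective ((LinearMap.ker φ).liftQ φ le_rfl) := by
    rw [← LinearMap.ker_eq_bot]
    exact Submodule.ker_liftQ_eq_bot _ _ _ le_rfl
  obtain ⟨h, hh⟩ := Module.Injective.out (R := R) (Q := E) ((LinearMap.ker φ).liftQ φ le_rfl) hinj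
    ((LinearMap.ker φ).liftQ ((Ga J E).subtype.comp g) h2)
  have hmem : h (Submodule.Quotient.mk 1) ∈ Ga J E := by
    refine ⟨n + k, fun a ha => ?_⟩
    rw [← map_smul, ← Submodule.Quotient.mk_smul, smul_eq_mul, mul_one,
      (Submodule.Quotient.mk_eq_zero _).2 ha, map_zero]
  refine ⟨LinearMap.toSpanSingleton R (Ga J E) ⟨_, hmem⟩, fun x hx => ?_⟩
  apply Subtype.ext
  have h4 := hh (Submodule.Quotient.mk ⟨x, hx⟩)
  rw [Submodule.liftQ_apply, Submodule.liftQ_apply] at h4
  change _ = (Ga J E).subtype (g ⟨x, hx⟩)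
  refine Eq.trans ?_ h4
  change x • h (Submodule.Quotient.mk 1) = h (Submodule.Quotient.mk x)
  rw [← map_smul, ← Submodule.Quotient.mk_smul, smul_eq_mul, mul_one]

/-- a torsion module embeds in an injective torsion module -/
lemma exists_emb [IsNoetherianRing R] (V : MC R) (hV : IsTo J V) :
    ∃ (S : ShortComplex (MC R)) (hS : S.ShortExact) (e : V = S.X₁), Injective S.X₂ ∧
      IsTo J S.X₂ ∧ IsTo J S.X₃ := by
  let E : MC R := Injective.under V
  have hE0 : Injective (Injective.under V) := Injective.injective_under V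
  have hE : Module.Injective R E := Module.injective_module_of_injective_object (inj := hE0) R E
  have hG : Module.Injective R (Ga J E) := (baer_Ga J E).injective
  have hG' : Injective (ModuleCat.of R (Ga J E)) :=
    Module.injective_object_of_injective_module R (Ga J E)
  let i0 : V ⟶ E := Injective.ι V
  have hi0 : Function.Injective i0.hom := (ModuleCat.mono_iff_injective i0).1 inferInstance
  have hmem : ∀ v : V, i0.hom v ∈ Ga J E := by
    intro v
    obtain ⟨n, hn⟩ := hV v
    exact ⟨n, fun a ha => by rw [← map_smul, hn a ha, map_zero]⟩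
  let i1 : V →ₗ[R] Ga J E := i0.hom.codRestrict (Ga J E) hmem
  let S : ShortComplex (MC R) := ShortComplex.mk (X₁ := V) (X₂ := ModuleCat.of R (Ga J E))
    (X₃ := ModuleCat.of R ((Ga J E) ⧸ LinearMap.range i1)) (ModuleCat.ofHom i1)
    (ModuleCat.ofHom (Submodule.mkQ _)) (by
      apply ModuleCat.hom_ext
      apply LinearMap.ext
      intro x
      change Submodule.Quotient.mk (i1 x) = 0
      rw [Submodule.Quotient.mk_eq_zero]
      exact ⟨x, rfl⟩)
  have hS : S.ShortExact := by
    have hm : Mono (ModuleCat.ofHom i1) := by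
      rw [ModuleCat.mono_iff_injective]
      intro a b hab
      exact hi0 (congrArg Subtype.val hab)
    have he : Epi (ModuleCat.ofHom (Submodule.mkQ (LinearMap.range i1))) := by
      rw [ModuleCat.epi_iff_surjective]
      exact Submodule.mkQ_surjective _
    refine @ShortComplex.ShortExact.mk _ _ _ S ?_ hm he
    rw [ShortComplex.moduleCat_exact_iff]
    intro a ha
    have h1 : (Submodule.Quotient.mk a : (Ga J E) ⧸ LinearMap.range i1) = 0 := ha
    rw [Submodule.Quotient.mk_eq_zero] at h1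
    exact h1
  refine ⟨S, hS, rfl, hG', Ga_isTo J E, ?_⟩
  intro w
  obtain ⟨y, rfl⟩ := Submodule.Quotient.mk_surjective _ w
  obtain ⟨n, hn⟩ := Ga_isTo J E y
  refine ⟨n, fun a ha => ?_⟩
  exact (congrArg (Submodule.Quotient.mk (p := LinearMap.range i1)) (hn a ha))

/-- torsion modules have no higher local cohomology -/
theorem tors_ev [IsNoetherianRing R] (j : ℕ) : ∀ (V : MC R), IsTo J V → ∀ (t : ℕ)
    (α : Ext.{0} (QJ J t) V (j + 1)), ∃ (s : ℕ) (h : t ≤ s), pb J h α = 0 := by
  induction j with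
  | zero =>
    intro V hV t α
    obtain ⟨S, hS, rfl, hI, hT, hT'⟩ := exists_emb J V hV
    obtain ⟨x, hx⟩ := Ext.covariant_sequence_exact₁ (QJ J t) hS α
      (Ext.eq_zero_of_injective _) rfl
    obtain ⟨f, rfl⟩ := (Ext.mk₀_bijective _ _).2 x
    obtain ⟨y, hy⟩ := (ModuleCat.epi_iff_surjective S.g).1 hS.epi_g
      (f.hom (Submodule.Quotient.mk (1 : R)))
    obtain ⟨n, hn⟩ := hT y
    have hle : t ≤ max t n := le_max_left t n
    refine ⟨max t n, hle, ?_⟩
    let f' : QJ J (max t n) ⟶ S.X₂ := ModuleCat.ofHom (Submodule.liftQ _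
      (LinearMap.toSpanSingleton R S.X₂ y) (by
        intro a ha
        rw [LinearMap.mem_ker, LinearMap.toSpanSingleton_apply]
        exact hn a (Ideal.pow_le_pow_right (le_max_right t n) ha)))
    have hf' : prJ J hle ≫ f = f' ≫ S.g := by
      apply QI_ext
      change f.hom (Submodule.Quotient.mk (1 : R)) =
        S.g.hom (Submodule.liftQ _ (LinearMap.toSpanSingleton R S.X₂ y) _ (Submodule.Quotient.mk 1))
      rw [Submodule.liftQ_apply, LinearMap.toSpanSingleton_apply, one_smul]
      exact hy.symm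
    rw [← hx, pb, ← Ext.comp_assoc (a₁₂ := 0) (a₂₃ := 1) (a := 1) _ _ _ (zero_add 0) (zero_add 1)
      (by rfl), Ext.mk₀_comp_mk₀, hf', ← Ext.mk₀_comp_mk₀,
      Ext.comp_assoc (a₁₂ := 0) (a₂₃ := 1) (a := 1) _ _ _ (zero_add 0) (zero_add 1)
      (by rfl), hS.comp_extClass, Ext.comp_zero]
  | succ j ih =>
    intro V hV t α
    obtain ⟨S, hS, rfl, hI, hT, hT'⟩ := exists_emb J V hV
    obtain ⟨x, hx⟩ := Ext.covariant_sequence_exact₁ (QJ J t) hS α
      (Ext.eq_zero_of_injective _) rfl
    obtain ⟨s, h, hs⟩ := ih S.X₃ hT' t x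
    refine ⟨s, h, ?_⟩
    rw [← hx, pb, ← Ext.comp_assoc (a₁₂ := j + 1) (a₂₃ := j + 1 + 1) (a := j + 1 + 1) _ _ _
      (zero_add _) rfl (by rw [zero_add])]
    have : (Ext.mk₀ (prJ J h)).comp x (zero_add (j + 1)) = 0 := hs
    rw [this, Ext.zero_comp]

end

end Pool.Agent.H215R3.LC
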